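import Mathlib

/-!
Loop programs on counters compute the primitive recursive functions (vendored from helper707),
and flat counter programs.
-/

set_option autoImplicit false

namespace Pool.Agent.Helper273.Reg

open Function

/-- programs -/
inductive Cmd
  | nop
  | inc (r : ℕ)
  | seq (c d : Cmd)
  | loop (r : ℕ) (c : Cmd)

/-- big step semantics; `loop r c` decreases `r` and runs `c` as long as `r` is positive -/
inductive Exec : Cmd → (ℕ → ℕ) → (ℕ → ℕ) → Prop
  | nop (σ : ℕ → ℕ) : Exec .nop σ σ
  | inc (r : ℕ) (σ : ℕ → ℕ) : Exec (.inc r) σ (update σ r (σ r + 1))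
  | seq {c d : Cmd} {σ τ ρ : ℕ → ℕ} : Exec c σ τ → Exec d τ ρ → Exec (.seq c d) σ ρ
  | loop_zero {r : ℕ} {c : Cmd} {σ : ℕ → ℕ} : σ r = 0 → Exec (.loop r c) σ σ
  | loop_succ {r : ℕ} {c : Cmd} {σ τ ρ : ℕ → ℕ} {k : ℕ} : σ r = k + 1 →
      Exec c (update σ r k) τ → Exec (.loop r c) τ ρ → Exec (.loop r c) σ ρ

theorem Exec.congr {c : Cmd} {σ σ' τ τ' : ℕ → ℕ} (h : Exec c σ τ) (h1 : σ = σ') (h2 : τ = τ') :
    Exec c σ' τ' := by subst h1; subst h2; exact h

theorem exec_loop (r : ℕ) (c : Cmd) (k : ℕ) (s : ℕ → ℕ → ℕ)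
    (h0 : ∀ i < k, Exec c (update (s i) r (k - i - 1)) (s (i + 1)))
    (hr : ∀ i ≤ k, s i r = k - i) : Exec (.loop r c) (s 0) (s k) := by
  induction k generalizing s with
  | zero => exact Exec.loop_zero (by simpa using hr 0 le_rfl)
  | succ k ih =>
    refine Exec.loop_succ (k := k) (by simpa using hr 0 (Nat.zero_le _))
      ((h0 0 (Nat.succ_pos _)).congr (by simp) rfl) ?_
    refine ih (fun i => s (i + 1)) ?_ ?_
    · intro i hi
      refine (h0 (i + 1) (by omega)).congr ?_ rfl
      congr 1; omega
    · intro i hi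
      rw [hr (i + 1) (by omega)]; omega

/-- set a register to zero -/
def clear (r : ℕ) : Cmd := .loop r .nop

theorem exec_clear (r : ℕ) (σ : ℕ → ℕ) : Exec (clear r) σ (update σ r 0) := by
  have := exec_loop r .nop (σ r) (fun i => update σ r (σ r - i)) (fun i hi => by
    refine (Exec.nop _).congr rfl ?_
    simp only [update_idem]
    congr 1) (fun i hi => by simp)
  simpa [clear] using this

/-- add a register to another one and clear it -/
def move (src dst : ℕ) : Cmd := .loop src (.inc dst)

theorem exec_move {src dst : ℕ} (h : src ≠ dst) (σ : ℕ → ℕ) :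
    Exec (move src dst) σ (update (update σ src 0) dst (σ dst + σ src)) := by
  have := exec_loop src (.inc dst) (σ src)
    (fun i => update (update σ src (σ src - i)) dst (σ dst + i)) (fun i hi => by
    refine (Exec.inc _ _).congr rfl ?_
    funext x
    simp only [update_apply]
    split_ifs <;> omega) (fun i hi => by simp [update_apply, h])
  simpa [move] using this

/-- add a register to another one, keeping the source; `t` is a zero scratch register -/
def copy (src dst t : ℕ) : Cmd :=
  .seq (.loop src (.seq (.inc dst) (.inc t))) (.loop t (.inc src))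

theorem exec_copy {src dst t : ℕ} (h1 : src ≠ dst) (h2 : src ≠ t) (h3 : dst ≠ t) (σ : ℕ → ℕ)
    (ht : σ t = 0) : Exec (copy src dst t) σ (update σ dst (σ dst + σ src)) := by
  refine Exec.seq (τ := update (update (update σ src 0) dst (σ dst + σ src)) t (σ src)) ?_ ?_
  · have := exec_loop src (.seq (.inc dst) (.inc t)) (σ src)
      (fun i => update (update (update σ src (σ src - i)) dst (σ dst + i)) t i) (fun i hi => by
      refine Exec.seq (Exec.inc _ _) ((Exec.inc _ _).congr rfl ?_)
      funext x
      simp only [update_apply]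
      split_ifs <;> omega) (fun i hi => by simp [update_apply, h1, h2])
    refine this.congr ?_ (by simp)
    funext x
    simp only [update_apply]
    split_ifs <;> simp_all
  · have := exec_loop t (.inc src) (σ src)
      (fun i => update (update (update σ src i) dst (σ dst + σ src)) t (σ src - i)) (fun i hi => by
      refine (Exec.inc _ _).congr rfl ?_
      funext x
      simp only [update_apply]
      split_ifs <;> omega) (fun i hi => by simp [update_apply])
    refine this.congr (by simp) ?_
    funext x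
    simp only [update_apply]
    split_ifs <;> simp_all

/-- a function is computed by programs with any placement of inputs, output and scratch -/
def Comp {n : ℕ} (f : List.Vector ℕ n → ℕ) : Prop :=
  ∀ (inp : Fin n → ℕ) (out b : ℕ), (∀ i, inp i < b) → out < b → (∀ i, inp i ≠ out) →
    ∃ c : Cmd, ∀ σ : ℕ → ℕ, (∀ r, b ≤ r → σ r = 0) → σ out = 0 →
      Exec c σ (update σ out (f (List.Vector.ofFn fun i => σ (inp i))))

theorem comp_zero : Comp (n := 0) (fun _ => 0) := by
  intro inp out b _ _ _
  refine ⟨.nop, fun σ _ h0 => (Exec.nop σ).congr rfl ?_⟩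
  funext r
  simp only [update_apply]
  split_ifs with h
  · rw [h, h0]
  · rfl

theorem comp_get {n : ℕ} (i : Fin n) : Comp (fun v : List.Vector ℕ n => v.get i) := by
  intro inp out b hi ho hio
  refine ⟨copy (inp i) out b, fun σ hz h0 => ?_⟩
  refine (exec_copy (hio i) (hi i).ne ho.ne σ (hz b le_rfl)).congr rfl ?_
  rw [h0, zero_add]
  simp

theorem comp_succ : Comp (n := 1) (fun v => v.head.succ) := by
  intro inp out b hi ho hio
  refine ⟨.seq (copy (inp 0) out b) (.inc out), fun σ hz h0 => ?_⟩
  refine Exec.seq (exec_copy (hio 0) (hi 0).ne ho.ne σ (hz b le_rfl))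
    ((Exec.inc _ _).congr rfl ?_)
  rw [h0]
  simp

/-- clear the registers `b, …, b + k - 1` -/
def clears (b : ℕ) : ℕ → Cmd
  | 0 => .nop
  | k + 1 => .seq (clears b k) (clear (b + k))

theorem exec_clears (b k : ℕ) (σ : ℕ → ℕ) :
    Exec (clears b k) σ (fun r => if b ≤ r ∧ r < b + k then 0 else σ r) := by
  induction k with
  | zero =>
    refine (Exec.nop σ).congr rfl ?_
    funext r
    rw [if_neg (by omega)]
  | succ k ih =>
    refine Exec.seq ih ((exec_clear _ _).congr rfl ?_)
    funext r
    simp only [update_apply]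
    split_ifs <;> omega

theorem comp_comp {m n : ℕ} {f : List.Vector ℕ n → ℕ} (g : Fin n → List.Vector ℕ m → ℕ)
    (hf : Comp f) (hg : ∀ i, Comp (g i)) : Comp (fun a => f (List.Vector.ofFn fun i => g i a)) := by
  intro inp out b hi ho hio
  let gv : (ℕ → ℕ) → ℕ → ℕ := fun σ j =>
    if h : j < n then g ⟨j, h⟩ (List.Vector.ofFn fun i => σ (inp i)) else 0
  have key : ∀ k ≤ n, ∃ c : Cmd, ∀ σ : ℕ → ℕ, (∀ r, b ≤ r → σ r = 0) →
      Exec c σ (fun r => if b ≤ r ∧ r < b + k then gv σ (r - b) else σ r) := by
    intro k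
    induction k with
    | zero =>
      intro _
      refine ⟨.nop, fun σ _ => (Exec.nop σ).congr rfl ?_⟩
      funext r
      rw [if_neg (by omega)]
    | succ k ih =>
      intro hk
      obtain ⟨c, hc⟩ := ih (by omega)
      obtain ⟨d, hd⟩ := hg ⟨k, hk⟩ inp (b + k) (b + k + 1)
        (fun i => by have := hi i; omega) (by omega) (fun i => by have := hi i; omega)
      refine ⟨.seq c d, fun σ hz => Exec.seq (hc σ hz) ?_⟩
      refine (hd _ ?_ ?_).congr rfl ?_
      · intro r hr
        rw [if_neg (by omega)]; exact hz r (by omega)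
      · rw [if_neg (by omega)]; exact hz _ (by omega)
      · funext r
        have e1 : (List.Vector.ofFn fun i => (fun r => if b ≤ r ∧ r < b + k then gv σ (r - b)
            else σ r) (inp i)) = List.Vector.ofFn fun i => σ (inp i) := by
          congr 1
          funext i
          have := hi i
          simp only []
          rw [if_neg (by omega)]
        rw [e1]
        simp only [update_apply]
        by_cases hr : r = b + k
        · subst hr
          rw [if_pos rfl, if_pos (by omega)]
          simp only [gv]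
          have : b + k - b = k := by omega
          rw [dif_pos (by omega)]
          simp only [this]
        · rw [if_neg hr]
          by_cases h2 : b ≤ r ∧ r < b + k
          · rw [if_pos h2, if_pos (by omega)]
          · rw [if_neg h2, if_neg (by omega)]
  obtain ⟨c, hc⟩ := key n le_rfl
  obtain ⟨d, hd⟩ := hf (fun i => b + i) out (b + n) (fun i => by omega) (by omega)
    (fun i => by omega)
  refine ⟨.seq c (.seq d (clears b n)), fun σ hz h0 => ?_⟩
  refine Exec.seq (hc σ hz) (Exec.seq (hd _ ?_ ?_) ((exec_clears _ _ _).congr rfl ?_))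
  · intro r hr
    rw [if_neg (by omega)]; exact hz r (by omega)
  · rw [if_neg (by omega)]; exact h0
  · funext r
    have e1 : (List.Vector.ofFn fun i : Fin n => (fun r => if b ≤ r ∧ r < b + n then gv σ (r - b)
            else σ r) (b + i)) = List.Vector.ofFn fun i => g i
              (List.Vector.ofFn fun i => σ (inp i)) := by
      congr 1
      funext i
      simp only []
      rw [if_pos (by omega)]
      simp only [gv]
      have : b + (i : ℕ) - b = i := by omega
      rw [dif_pos (by omega)]
      simp only [this]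
    rw [e1]
    simp only [update_apply]
    by_cases h1 : b ≤ r ∧ r < b + n
    · rw [if_pos h1, if_neg (by omega), hz r h1.1]
    · rw [if_neg h1]
      by_cases h2 : r = out
      · rw [if_pos h2, if_pos h2]
      · rw [if_neg h2, if_neg h2, if_neg h1]

/-- a state with four distinguished registers -/
def st (σ : ℕ → ℕ) (b y h t c : ℕ) : ℕ → ℕ := fun r =>
  if r = b then y else if r = b + 1 then h else if r = b + 2 then t else if r = b + 3 then c
    else σ r

theorem st_0 (σ : ℕ → ℕ) (b y h t c : ℕ) : st σ b y h t c b = y := by simp [st]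
theorem st_1 (σ : ℕ → ℕ) (b y h t c : ℕ) : st σ b y h t c (b + 1) = h := by simp [st]
theorem st_2 (σ : ℕ → ℕ) (b y h t c : ℕ) : st σ b y h t c (b + 2) = t := by simp [st]
theorem st_3 (σ : ℕ → ℕ) (b y h t c : ℕ) : st σ b y h t c (b + 3) = c := by simp [st]

theorem st_ne (σ : ℕ → ℕ) (b y h t c r : ℕ) (hr : r < b ∨ b + 4 ≤ r) :
    st σ b y h t c r = σ r := by
  unfold st
  rw [if_neg (by omega), if_neg (by omega), if_neg (by omega), if_neg (by omega)]

theorem up_0 (σ : ℕ → ℕ) (b y h t c y' : ℕ) :
    update (st σ b y h t c) b y' = st σ b y' h t c := by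
  funext r
  simp only [update_apply, st]
  split_ifs <;> rfl

theorem up_1 (σ : ℕ → ℕ) (b y h t c y' : ℕ) :
    update (st σ b y h t c) (b + 1) y' = st σ b y y' t c := by
  funext r
  simp only [update_apply, st]
  split_ifs <;> omega

theorem up_2 (σ : ℕ → ℕ) (b y h t c y' : ℕ) :
    update (st σ b y h t c) (b + 2) y' = st σ b y h y' c := by
  funext r
  simp only [update_apply, st]
  split_ifs <;> omega

theorem up_3 (σ : ℕ → ℕ) (b y h t c y' : ℕ) :
    update (st σ b y h t c) (b + 3) y' = st σ b y h t y' := by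
  funext r
  simp only [update_apply, st]
  split_ifs <;> omega

theorem st_self (σ : ℕ → ℕ) (b : ℕ) (hz : ∀ r, b ≤ r → σ r = 0) : st σ b 0 0 0 0 = σ := by
  funext r
  unfold st
  split_ifs with h1 h2 h3 h4
  · exact (hz r (by omega)).symm
  · exact (hz r (by omega)).symm
  · exact (hz r (by omega)).symm
  · exact (hz r (by omega)).symm
  · rfl

theorem comp_prec {n : ℕ} {f : List.Vector ℕ n → ℕ} {g : List.Vector ℕ (n + 2) → ℕ}
    (hf : Comp f) (hg : Comp g) :
    Comp (fun v : List.Vector ℕ (n + 1) =>
      v.head.rec (f v.tail) fun y IH => g (y ::ᵥ IH ::ᵥ v.tail)) := by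
  intro inp out b hi ho hio
  obtain ⟨cf, hcf⟩ := hf (fun i => inp i.succ) (b + 1) (b + 4)
    (fun i => by have := hi i.succ; omega) (by omega) (fun i => by have := hi i.succ; omega)
  let gi : Fin (n + 2) → ℕ := Fin.cons b (Fin.cons (b + 1) (fun i : Fin n => inp i.succ))
  have hgi : ∀ i, gi i < b + 2 := by
    intro i
    refine Fin.cases ?_ (fun i => ?_) i
    · simp [gi]
    · refine Fin.cases ?_ (fun i => ?_) i
      · simp [gi]
      · have := hi i.succ
        simp only [gi, Fin.cons_succ]; omega
  obtain ⟨cg, hcg⟩ := hg gi (b + 2) (b + 4)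
    (fun i => by have := hgi i; omega) (by omega)
    (fun i => by have := hgi i; omega)
  refine ⟨.seq (copy (inp 0) (b + 3) (b + 2)) (.seq cf (.seq (.loop (b + 3)
    (.seq cg (.seq (clear (b + 1)) (.seq (move (b + 2) (b + 1)) (.inc b)))))
    (.seq (clear b) (move (b + 1) out)))), fun σ hz h0 => ?_⟩
  have hi0 := hi 0
  set m := σ (inp 0) with hm
  set xs := List.Vector.ofFn (fun i : Fin n => σ (inp i.succ)) with hxs
  have hv : (List.Vector.ofFn fun i => σ (inp i)) = m ::ᵥ xs := rfl
  rw [hv]
  simp only [List.Vector.head_cons, List.Vector.tail_cons]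
  let R : ℕ → ℕ := fun i => Nat.rec (f xs) (fun y IH => g (y ::ᵥ IH ::ᵥ xs)) i
  have hR0 : f xs = R 0 := rfl
  have hRs : ∀ i, g (i ::ᵥ R i ::ᵥ xs) = R (i + 1) := fun i => rfl
  have hRm : Nat.rec (f xs) (fun y IH => g (y ::ᵥ IH ::ᵥ xs)) m = R m := rfl
  rw [hRm]
  clear_value m R
  have hb2 := hz (b + 2) (by omega)
  have hin : ∀ (y h t c : ℕ) (i : Fin n), st σ b y h t c (inp i.succ) = σ (inp i.succ) := by
    intro y h t c i
    exact st_ne _ _ _ _ _ _ _ (Or.inl (hi i.succ))
  have hzz : ∀ (y h t c : ℕ) (r : ℕ), b + 4 ≤ r → st σ b y h t c r = 0 := by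
    intro y h t c r hr
    rw [st_ne _ _ _ _ _ _ _ (Or.inr hr)]
    exact hz r (by omega)
  refine Exec.seq (τ := st σ b 0 0 0 m) ?_ (Exec.seq (τ := st σ b 0 (R 0) 0 m) ?_
    (Exec.seq (τ := st σ b m (R m) 0 0) ?_ (Exec.seq (τ := st σ b 0 (R m) 0 0) ?_ ?_)))
  · refine (exec_copy (by omega) (by omega) (by omega) σ hb2).congr rfl ?_
    rw [← up_3 σ b 0 0 0 0, st_self σ b hz, hz (b + 3) (by omega), zero_add, hm]
  · refine (hcf (st σ b 0 0 0 m) (hzz _ _ _ _) (st_1 _ _ _ _ _ _)).congr rfl ?_
    simp only [hin]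
    rw [← hxs, hR0, up_1]
  · refine (exec_loop (b + 3) _ m (fun i => st σ b i (R i) 0 (m - i)) ?_ ?_).congr (by simp)
      (by simp)
    · intro i him
      simp only [up_3]
      refine Exec.seq (τ := st σ b i (R i) (R (i + 1)) (m - i - 1)) ?_
        (Exec.seq (τ := st σ b i 0 (R (i + 1)) (m - i - 1)) ?_
          (Exec.seq (τ := st σ b i (R (i + 1)) 0 (m - i - 1)) ?_ ?_))
      · refine (hcg (st σ b i (R i) 0 (m - i - 1)) (hzz _ _ _ _) (st_2 _ _ _ _ _ _)).congr rfl ?_
        have e2 : (List.Vector.ofFn fun j : Fin (n + 2) =>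
            st σ b i (R i) 0 (m - i - 1) (gi j))
              = st σ b i (R i) 0 (m - i - 1) b ::ᵥ st σ b i (R i) 0 (m - i - 1) (b + 1) ::ᵥ
              List.Vector.ofFn fun j : Fin n => st σ b i (R i) 0 (m - i - 1) (inp j.succ) :=
          rfl
        rw [e2, st_0, st_1]
        simp only [hin]
        rw [← hxs, hRs, up_2]
      · refine (exec_clear _ _).congr rfl ?_
        rw [up_1]
      · refine (exec_move (by omega) _).congr rfl ?_
        rw [up_2, up_1, st_1, st_2, zero_add]
      · refine (Exec.inc _ _).congr rfl ?_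
        rw [up_0, st_0]
        congr 1
    · intro i him
      exact st_3 _ _ _ _ _ _
  · refine (exec_clear _ _).congr rfl ?_
    rw [up_0]
  · refine (exec_move (by omega) _).congr rfl ?_
    rw [up_1, st_self σ b hz, st_1, st_ne _ _ _ _ _ _ _ (Or.inl ho), h0, zero_add]

theorem comp_of_primrec {n : ℕ} {f : List.Vector ℕ n → ℕ} (h : Nat.Primrec' f) : Comp f := by
  induction h with
  | zero => exact comp_zero
  | succ => exact comp_succ
  | get i => exact comp_get i
  | comp g _ _ ihf ihg => exact comp_comp g ihf ihg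
  | prec _ _ ihf ihg => exact comp_prec ihf ihg

/-- flat instructions with explicit targets -/
inductive Ins
  | inc (r t : ℕ)
  | dec (r t t' : ℕ)
  | jmp (t : ℕ)

/-- one step of a flat program -/
def step (P : List Ins) (x : ℕ × (ℕ → ℕ)) : ℕ × (ℕ → ℕ) :=
  match P[x.1]? with
  | some (.inc r t) => (t, update x.2 r (x.2 r + 1))
  | some (.dec r t t') => if x.2 r = 0 then (t', x.2) else (t, update x.2 r (x.2 r - 1))
  | some (.jmp t) => (t, x.2)
  | none => x

/-- length of the code -/
def len : Cmd → ℕ
  | .nop => 0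
  | .inc _ => 1
  | .seq c d => len c + len d
  | .loop _ c => len c + 2

/-- code placed at an offset -/
def code : Cmd → ℕ → List Ins
  | .nop, _ => []
  | .inc r, o => [.inc r (o + 1)]
  | .seq c d, o => code c o ++ code d (o + len c)
  | .loop r c, o => .dec r (o + 1) (o + (len c + 2)) :: (code c (o + 1) ++ [.jmp o])

theorem length_code (c : Cmd) (o : ℕ) : (code c o).length = len c := by
  induction c generalizing o with
  | nop => rfl
  | inc r => rfl
  | seq c d ihc ihd => simp [code, len, ihc, ihd]
  | loop r c ih => simp [code, len, ih]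

/-- a piece of code sits at an offset of a program -/
def IsAt (P : List Ins) (o : ℕ) (l : List Ins) : Prop :=
  ∃ pre post, P = pre ++ (l ++ post) ∧ pre.length = o

theorem IsAt.left {P : List Ins} {o : ℕ} {l m : List Ins} (h : IsAt P o (l ++ m)) : IsAt P o l := by
  obtain ⟨pre, post, h1, h2⟩ := h
  exact ⟨pre, m ++ post, by rw [h1, List.append_assoc], h2⟩

theorem IsAt.right {P : List Ins} {o : ℕ} {l m : List Ins} (h : IsAt P o (l ++ m)) :
    IsAt P (o + l.length) m := by
  obtain ⟨pre, post, h1, h2⟩ := h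
  exact ⟨pre ++ l, post, by rw [h1, List.append_assoc, List.append_assoc],
    by rw [List.length_append, h2]⟩

theorem IsAt.get {P : List Ins} {o : ℕ} {i : Ins} {l : List Ins} (h : IsAt P o (i :: l)) :
    P[o]? = some i := by
  obtain ⟨pre, post, h1, h2⟩ := h
  rw [h1, ← h2]
  simp

theorem sim {c : Cmd} {σ τ : ℕ → ℕ} (h : Exec c σ τ) (P : List Ins) (o : ℕ)
    (hP : IsAt P o (code c o)) : ∃ k, (step P)^[k] (o, σ) = (o + len c, τ) := by
  induction h generalizing o with
  | nop σ => exact ⟨0, rfl⟩
  | inc r σ =>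
    refine ⟨1, ?_⟩
    have := hP.get
    simp only [iterate_one, step, this, len]
  | @seq c d σ τ ρ _ _ ihc ihd =>
    have h1 : IsAt P o (code c o) := hP.left
    have h2 : IsAt P (o + len c) (code d (o + len c)) := by
      have := hP.right
      rwa [length_code] at this
    obtain ⟨k1, e1⟩ := ihc o h1
    obtain ⟨k2, e2⟩ := ihd (o + len c) h2
    refine ⟨k2 + k1, ?_⟩
    rw [iterate_add_apply, e1, e2]
    simp only [len, add_assoc]
  | @loop_zero r c σ h0 =>
    refine ⟨1, ?_⟩
    have := hP.get
    simp only [iterate_one, step, this, h0, len, if_true]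
  | @loop_succ r c σ τ ρ k h0 _ _ ih1 ih2 =>
    have g0 := hP.get
    have h1 : IsAt P (o + 1) (code c (o + 1) ++ [.jmp o]) := IsAt.right (l := [_]) hP
    obtain ⟨k1, e1⟩ := ih1 (o + 1) h1.left
    have g1 : P[o + 1 + len c]? = some (.jmp o) := by
      have := h1.right
      rw [length_code] at this
      exact this.get
    obtain ⟨k2, e2⟩ := ih2 o hP
    refine ⟨k2 + (1 + (k1 + 1)), ?_⟩
    have s1 : step P (o, σ) = (o + 1, update σ r k) := by
      simp only [step, g0, h0]
      simp
    have s2 : step P (o + 1 + len c, τ) = (o, τ) := by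
      simp only [step, g1]
    rw [iterate_add_apply, iterate_add_apply, iterate_add_apply, iterate_one, s1, e1, s2, e2]

/-- instructions with bounded registers and targets -/
def Ok (K L : ℕ) : Ins → Prop
  | .inc r t => r < K ∧ t ≤ L
  | .dec r t t' => r < K ∧ t ≤ L ∧ t' ≤ L
  | .jmp t => t ≤ L

theorem Ok.mono {K K' L L' : ℕ} (hK : K ≤ K') (hL : L ≤ L') {i : Ins} (h : Ok K L i) :
    Ok K' L' i := by
  cases i with
  | inc r t => exact ⟨lt_of_lt_of_le h.1 hK, le_trans h.2 hL⟩
  | dec r t t' => exact ⟨lt_of_lt_of_le h.1 hK, le_trans h.2.1 hL, le_trans h.2.2 hL⟩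
  | jmp t => exact le_trans (show t ≤ L from h) hL

theorem code_ok (c : Cmd) : ∃ K, ∀ o, ∀ i ∈ code c o, Ok K (o + len c) i := by
  induction c with
  | nop => exact ⟨0, fun o i hi => by simp [code] at hi⟩
  | inc r =>
    refine ⟨r + 1, fun o i hi => ?_⟩
    simp only [code, List.mem_singleton] at hi
    subst hi
    exact ⟨by omega, le_rfl⟩
  | seq c d ihc ihd =>
    obtain ⟨K1, h1⟩ := ihc
    obtain ⟨K2, h2⟩ := ihd
    refine ⟨max K1 K2, fun o i hi => ?_⟩
    simp only [code, List.mem_append] at hi
    rcases hi with hi | hi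
    · exact (h1 o i hi).mono (le_max_left _ _) (by simp only [len]; omega)
    · exact (h2 _ i hi).mono (le_max_right _ _) (by simp only [len]; omega)
  | loop r c ih =>
    obtain ⟨K1, h1⟩ := ih
    refine ⟨max K1 (r + 1), fun o i hi => ?_⟩
    simp only [code, List.mem_cons, List.mem_append, List.not_mem_nil, or_false] at hi
    rcases hi with rfl | hi | rfl
    · exact ⟨by omega, by simp only [len]; omega, by simp only [len]; omega⟩
    · exact (h1 _ i hi).mono (le_max_left _ _) (by simp only [len]; omega)
    · show o ≤ _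
      omega

end Pool.Agent.Helper273.Reg
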