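import Mathlib
import Pool.Agent.Helper273.Reg

/-!
Register machines generate all recursively enumerable sets of numbers.
-/

set_option autoImplicit false

namespace Pool.Agent.Helper273.Machine

open Function Pool.Agent.Helper273.Reg

/-- instructions of a register machine with `N` registers and control states `Q` -/
inductive MI (N : ℕ) (Q : Type)
  | inc (r : Fin N) (q : Q)
  | dec (r : Fin N) (q q' : Q)
  | jmp (q : Q)

/-- one step: `inc r q` increases `r`, `dec r q q'` decreases `r` if it is positive and goes to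
`q`, and goes to `q'` if it is zero -/
def mstep {N : ℕ} {Q : Type} (ins : Q → MI N Q) (x : Q × (Fin N → ℕ)) : Q × (Fin N → ℕ) :=
  match ins x.1 with
  | .inc r q => (q, update x.2 r (x.2 r + 1))
  | .dec r q q' => if x.2 r = 0 then (q', x.2) else (q, update x.2 r (x.2 r - 1))
  | .jmp q => (q, x.2)

/-- initial registers: `n` in register `0` and `k` in register `1` -/
def st0 (N n k : ℕ) : Fin N → ℕ := fun r => if (r : ℕ) = 0 then n else if (r : ℕ) = 1 then k else 0

/-- restriction of a state -/
def res (N : ℕ) (σ : ℕ → ℕ) : Fin N → ℕ := fun r => σ r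

/-- conversion of a flat instruction -/
def conv (N L : ℕ) : Ins → MI (N + 3) (Fin (L + 1))
  | .inc r t => .inc (Fin.ofNat (N + 3) r) (Fin.ofNat (L + 1) t)
  | .dec r t t' => .dec (Fin.ofNat (N + 3) r) (Fin.ofNat (L + 1) t) (Fin.ofNat (L + 1) t')
  | .jmp t => .jmp (Fin.ofNat (L + 1) t)

/-- conversion of a flat program -/
def convP (N L : ℕ) (P : List Ins) (i : Fin (L + 1)) : MI (N + 3) (Fin (L + 1)) :=
  match P[(i : ℕ)]? with
  | some x => conv N L x
  | none => .dec (Fin.last (N + 2)) (Fin.last L) (Fin.last L)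

theorem res_update {N : ℕ} (σ : ℕ → ℕ) (r x : ℕ) (hr : r < N + 3) :
    update (res (N + 3) σ) (Fin.ofNat (N + 3) r) x = res (N + 3) (update σ r x) := by
  funext s
  have h : s = Fin.ofNat (N + 3) r ↔ (s : ℕ) = r := by
    rw [Fin.ext_iff]
    simp [Fin.ofNat, Nat.mod_eq_of_lt hr]
  simp only [update_apply, res, h]

theorem ofNat_val (n r : ℕ) (hr : r < n + 1) : ((Fin.ofNat (n + 1) r : Fin (n + 1)) : ℕ) = r := by
  simp [Fin.ofNat, Nat.mod_eq_of_lt hr]

theorem conv_step {N L : ℕ} {P : List Ins} (hlen : P.length = L) (hP : ∀ i ∈ P, Ok (N + 2) L i)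
    (pc : ℕ) (σ : ℕ → ℕ) (hpc : pc ≤ L) (hσ : ∀ r, N + 2 ≤ r → σ r = 0) :
    mstep (convP N L P) (Fin.ofNat (L + 1) pc, res (N + 3) σ) =
      (Fin.ofNat (L + 1) (step P (pc, σ)).1, res (N + 3) (step P (pc, σ)).2) ∧
      (step P (pc, σ)).1 ≤ L ∧ ∀ r, N + 2 ≤ r → (step P (pc, σ)).2 r = 0 := by
  have hv : ((Fin.ofNat (L + 1) pc : Fin (L + 1)) : ℕ) = pc := ofNat_val _ _ (by omega)
  unfold mstep step convP
  simp only [hv]
  cases hi : P[pc]? with
  | none =>
    have hpL : pc = L := by
      rw [List.getElem?_eq_none_iff] at hi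
      omega
    have h0 : res (N + 3) σ (Fin.last (N + 2)) = 0 := hσ _ (by simp)
    simp only [h0, if_true]
    refine ⟨?_, hpc, hσ⟩
    subst hpL
    refine Prod.ext ?_ rfl
    simp only
    apply Fin.ext
    rw [hv]
    rfl
  | some i =>
    have hmem : i ∈ P := List.mem_of_getElem? hi
    have hok := hP i hmem
    cases i with
    | inc r t =>
      have hr : r < N + 2 := hok.1
      have h1 : res (N + 3) σ (Fin.ofNat (N + 3) r) = σ r := by
        simp only [res]; rw [ofNat_val (N + 2) r (by omega)]
      simp only [conv, h1]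
      refine ⟨?_, hok.2, ?_⟩
      · rw [res_update σ r _ (by omega)]
      · intro s hs
        rw [update_of_ne (by omega)]
        exact hσ s hs
    | dec r t t' =>
      have hr : r < N + 2 := hok.1
      have h1 : res (N + 3) σ (Fin.ofNat (N + 3) r) = σ r := by
        simp only [res]; rw [ofNat_val (N + 2) r (by omega)]
      simp only [conv, h1]
      by_cases h0 : σ r = 0
      · simp only [h0, if_true]
        exact ⟨trivial, hok.2.2, hσ⟩
      · simp only [h0, if_false]
        refine ⟨?_, hok.2.1, ?_⟩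
        · rw [res_update σ r _ (by omega)]
        · intro s hs
          rw [update_of_ne (by omega)]
          exact hσ s hs
    | jmp t =>
      simp only [conv]
      exact ⟨trivial, hok, hσ⟩

theorem conv_iter {N L : ℕ} {P : List Ins} (hlen : P.length = L) (hP : ∀ i ∈ P, Ok (N + 2) L i)
    (σ : ℕ → ℕ) (hσ : ∀ r, N + 2 ≤ r → σ r = 0) (j : ℕ) :
    (mstep (convP N L P))^[j] (Fin.ofNat (L + 1) 0, res (N + 3) σ) =
      (Fin.ofNat (L + 1) ((step P)^[j] (0, σ)).1, res (N + 3) ((step P)^[j] (0, σ)).2) ∧
      ((step P)^[j] (0, σ)).1 ≤ L ∧ ∀ r, N + 2 ≤ r → ((step P)^[j] (0, σ)).2 r = 0 := by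
  induction j with
  | zero => exact ⟨rfl, Nat.zero_le _, hσ⟩
  | succ j ih =>
    obtain ⟨h1, h2, h3⟩ := ih
    rw [iterate_succ_apply', iterate_succ_apply', h1]
    exact conv_step hlen hP _ _ h2 h3

/-- the primitive recursive description of a recursively enumerable set -/
theorem exists_primrec (S : Set ℕ) (hS : REPred fun n => n ∈ S) :
    ∃ f : List.Vector ℕ 2 → ℕ, Nat.Primrec' f ∧
      ∀ n, n ∈ S ↔ ∃ k, f (k ::ᵥ n ::ᵥ List.Vector.nil) = 0 := by
  have h1 : Partrec fun n : ℕ => Part.assert (n ∈ S) fun _ => Part.some () := hS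
  have h2 : Partrec fun n : ℕ => (Part.assert (n ∈ S) fun _ => Part.some ()).map (fun _ => (0 : ℕ)) :=
    h1.map ((Computable.const 0).to₂)
  have h3 := Partrec.nat_iff.1 h2
  obtain ⟨c, hc⟩ := Nat.Partrec.Code.exists_code.1 h3
  have h4 : ∀ n, n ∈ S ↔ (c.eval n).Dom := by
    intro n
    rw [hc]
    constructor
    · intro h
      exact ⟨h, trivial⟩
    · rintro ⟨h, _⟩
      exact h
  let f : List.Vector ℕ 2 → ℕ := fun v =>
    if (Nat.Partrec.Code.evaln v.head c v.tail.head).isSome then 0 else 1
  have hf : Primrec f := by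
    have h1 : Primrec fun v : List.Vector ℕ 2 => Nat.Partrec.Code.evaln v.head c v.tail.head := by
      have h2 : Primrec fun v : List.Vector ℕ 2 =>
          (((v.head, c), v.tail.head) : (ℕ × Nat.Partrec.Code) × ℕ) :=
        Primrec.pair (Primrec.pair Primrec.vector_head (Primrec.const c))
          (Primrec.vector_head.comp Primrec.vector_tail)
      exact Nat.Partrec.Code.primrec_evaln.comp h2
    have h3 : Primrec fun v : List.Vector ℕ 2 =>
        (Nat.Partrec.Code.evaln v.head c v.tail.head).isSome :=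
      Primrec.option_isSome.comp h1
    exact Primrec.ite (Primrec.eq.comp h3 (Primrec.const true)) (Primrec.const 0) (Primrec.const 1)
  refine ⟨f, Nat.Primrec'.of_prim hf, fun n => ?_⟩
  have h5 : ∀ k, f (k ::ᵥ n ::ᵥ List.Vector.nil) = 0 ↔
      (Nat.Partrec.Code.evaln k c n).isSome = true := by
    intro k
    simp only [f, List.Vector.head_cons, List.Vector.tail_cons]
    split_ifs with h <;> simp [h]
  simp only [h5]
  rw [h4, Part.dom_iff_mem]
  constructor
  · rintro ⟨y, hy⟩
    obtain ⟨k, hk⟩ := Nat.Partrec.Code.evaln_complete.1 hy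
    exact ⟨k, Option.isSome_iff_exists.2 ⟨y, hk⟩⟩
  · rintro ⟨k, hk⟩
    obtain ⟨y, hy⟩ := Option.isSome_iff_exists.1 hk
    exact ⟨y, Nat.Partrec.Code.evaln_complete.2 ⟨k, hy⟩⟩

/-- unrestricted initial state -/
def st1 (n k : ℕ) : ℕ → ℕ := fun r => if r = 0 then n else if r = 1 then k else 0

/-- Every recursively enumerable set of numbers is generated by a register machine: `n` belongs to
the set iff for some `k` the machine started with registers `(n, k, 0, …)` reaches the last state
with all registers empty. The last state tests a register that is always empty. -/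
theorem exists_machine (S : Set ℕ) (hS : REPred fun n => n ∈ S) :
    ∃ (N L : ℕ) (ins : Fin (L + 1) → MI (N + 3) (Fin (L + 1))),
      ins (Fin.last L) = .dec (Fin.last (N + 2)) (Fin.last L) (Fin.last L) ∧
      ∀ n, n ∈ S ↔ ∃ k j, (mstep ins)^[j] (0, st0 (N + 3) n k) = (Fin.last L, fun _ => 0) := by
  obtain ⟨f, hf, hfS⟩ := exists_primrec S hS
  obtain ⟨c, hc⟩ := comp_of_primrec hf ![1, 0] 2 3 (by intro i; fin_cases i <;> simp) (by omega)
    (by intro i; fin_cases i <;> simp)
  set pr : Cmd := .seq c (.seq (clear 0) (clear 1)) with hpr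
  have hex : ∀ n k, Exec pr (st1 n k)
      (fun r => if r = 2 then f (k ::ᵥ n ::ᵥ List.Vector.nil) else 0) := by
    intro n k
    have h1 := hc (st1 n k) (fun r hr => by unfold st1; rw [if_neg (by omega), if_neg (by omega)])
      (by simp [st1])
    have e1 : (List.Vector.ofFn fun i : Fin 2 => st1 n k (![1, 0] i))
        = k ::ᵥ n ::ᵥ List.Vector.nil := rfl
    rw [e1] at h1
    refine Exec.seq h1 (Exec.seq (exec_clear _ _) ((exec_clear _ _).congr rfl ?_))
    funext r
    simp only [update_apply, st1]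
    split_ifs <;> first | rfl | omega
  set P := code pr 0 with hPdef
  set L := len pr with hL
  have hlen : P.length = L := length_code _ _
  obtain ⟨K0, hK0⟩ := code_ok pr
  have hP : ∀ i ∈ P, Ok (K0 + 2) L i := fun i hi => (hK0 0 i hi).mono (by omega) (by omega)
  have hat : IsAt P 0 (code pr 0) := ⟨[], [], by simp [hPdef], rfl⟩
  refine ⟨K0, L, convP K0 L P, ?_, fun n => ?_⟩
  · have : P[((Fin.last L : Fin (L + 1)) : ℕ)]? = none := by
      rw [List.getElem?_eq_none_iff, hlen]
      simp
    simp only [convP, this]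
  have hst : ∀ k, ∀ r, K0 + 2 ≤ r → st1 n k r = 0 := by
    intro k r hr
    unfold st1
    rw [if_neg (by omega), if_neg (by omega)]
  have hres : ∀ k, res (K0 + 3) (st1 n k) = st0 (K0 + 3) n k := fun k => rfl
  have hzero : (Fin.ofNat (L + 1) 0 : Fin (L + 1)) = 0 := rfl
  have hlast : (Fin.ofNat (L + 1) L : Fin (L + 1)) = Fin.last L := by
    apply Fin.ext
    rw [ofNat_val L L (by omega)]
    rfl
  have hfix : ∀ σ, step P (L, σ) = (L, σ) := by
    intro σ
    have : P[L]? = none := by
      rw [List.getElem?_eq_none_iff, hlen]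
    simp only [step, this]
  rw [hfS]
  refine exists_congr fun k => ?_
  obtain ⟨T, hT⟩ := sim (hex n k) P 0 hat
  rw [zero_add] at hT
  constructor
  · intro h0
    refine ⟨T, ?_⟩
    have h1 := (conv_iter hlen hP (st1 n k) (hst k) T).1
    rw [hzero, hres, hT] at h1
    rw [h1]
    refine Prod.ext hlast ?_
    funext r
    simp only [res, h0]
    split_ifs <;> rfl
  · rintro ⟨j, hj⟩
    obtain ⟨h1, h2, h3⟩ := conv_iter hlen hP (st1 n k) (hst k) j
    rw [hzero, hres, hj] at h1
    set y := (step P)^[j] (0, st1 n k) with hy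
    have hy1 : y.1 = L := by
      have := congrArg (fun p => ((p.1 : Fin (L + 1)) : ℕ)) h1
      simp only [Fin.val_last] at this
      rw [ofNat_val L y.1 (by omega)] at this
      exact this.symm
    have hy2 : ∀ r : ℕ, r < K0 + 3 → y.2 r = 0 := by
      intro r hr
      have := congrFun (congrArg Prod.snd h1) ⟨r, hr⟩
      simp only [res] at this
      exact this.symm
    have hyfix : step P y = y := by
      have := hfix y.2
      rw [← hy1] at this
      exact this
    have e1 : (step P)^[T + j] (0, st1 n k) = y := by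
      rw [iterate_add_apply, ← hy]
      exact iterate_fixed hyfix T
    have e2 : (step P)^[T + j] (0, st1 n k) =
        (L, fun r => if r = 2 then f (k ::ᵥ n ::ᵥ List.Vector.nil) else 0) := by
      rw [add_comm, iterate_add_apply, hT]
      exact iterate_fixed (hfix _) j
    rw [e1] at e2
    have := hy2 2 (by omega)
    rw [e2] at this
    simpa using this

end Pool.Agent.Helper273.Machine
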