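import Mathlib
import Pool.Agent.Helper273.Machine

/-!
Zero tests paid from a budget. A test of register `x r` moves the complementary register `y r` to
`x r` and back, each move costing one unit of `d`, and costs one unit of `c`. If at the beginning
`d ≥ 2 B c` and at the end both are used up, all tests are correct.
-/

set_option autoImplicit false

namespace Pool.Agent.Helper273.Budget

open Function Pool.Agent.Helper273.Machine

/-- A counter system without zero tests: transition `t` decreases the counters in `dc t`, then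
increases those in `ic t`, and outputs `out t` units. -/
structure CS (T K : Type) where
  dc : T → Finset K
  ic : T → Finset K
  out : T → ℕ
  start : T → Prop
  nx : T → T → Prop
  fin : T → Prop

/-- new counter values; `w` units of noise are added to counter `d` -/
def upd {T K : Type} [DecidableEq K] (A : CS T K) (d : K) (t : T) (v : K → ℕ) (w : ℕ) : K → ℕ :=
  fun k => v k - (if k ∈ A.dc t then 1 else 0) + (if k ∈ A.ic t then 1 else 0)
    + (if k = d then w else 0)

/-- complete runs ending with empty counters -/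
inductive BRun {T K : Type} [DecidableEq K] (A : CS T K) (d : K) (nz : ℕ → Prop) :
    T → (K → ℕ) → ℕ → ℕ → Prop
  | last {t : T} {v : K → ℕ} {o w : ℕ} : (∀ k ∈ A.dc t, 1 ≤ v k) → A.fin t → nz w →
      (∀ k, upd A d t v w k = 0) → BRun A d nz t v o (o + A.out t)
  | step {t t' : T} {v : K → ℕ} {o n w : ℕ} : (∀ k ∈ A.dc t, 1 ≤ v k) → A.nx t t' → nz w →
      BRun A d nz t' (upd A d t v w) (o + A.out t) n → BRun A d nz t v o n

/-- counters: registers, complementary registers, number of tests, budget -/
inductive Ctr (N : ℕ)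
  | x (r : Fin N)
  | y (r : Fin N)
  | c
  | d
  deriving DecidableEq, Fintype

/-- control states -/
inductive Q (L : ℕ)
  | g0
  | g1
  | pc (i : Fin (L + 1))
  | t1 (i : Fin (L + 1))
  | t2 (i : Fin (L + 1))
  | z
  deriving DecidableEq

/-- transitions -/
inductive Tr (N L : ℕ)
  | g0
  | g01
  | g1
  | g1p
  | op (i : Fin (L + 1))
  | ta (i : Fin (L + 1))
  | tb (i : Fin (L + 1))
  | tc (i : Fin (L + 1))
  | td (i : Fin (L + 1))
  | te (i : Fin (L + 1))
  | fz
  | z (r : Fin N)
  | zz
  deriving DecidableEq, Fintype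

section

variable {N L : ℕ} (ins : Fin (L + 1) → MI (N + 3) (Fin (L + 1)))

/-- register of an instruction -/
def rg (i : Fin (L + 1)) : Fin (N + 3) :=
  match ins i with
  | .inc r _ => r
  | .dec r _ _ => r
  | .jmp _ => 0

/-- main target -/
def tg (i : Fin (L + 1)) : Fin (L + 1) :=
  match ins i with
  | .inc _ q => q
  | .dec _ q _ => q
  | .jmp q => q

/-- target for zero -/
def tz (i : Fin (L + 1)) : Fin (L + 1) :=
  match ins i with
  | .inc _ q => q
  | .dec _ _ q => q
  | .jmp q => q

/-- test transitions exist only for test instructions -/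
def Valid : Tr (N + 3) L → Prop
  | .ta i => ∃ r q q', ins i = .dec r q q'
  | .tb i => ∃ r q q', ins i = .dec r q q'
  | .tc i => ∃ r q q', ins i = .dec r q q'
  | .td i => ∃ r q q', ins i = .dec r q q'
  | .te i => ∃ r q q', ins i = .dec r q q'
  | _ => True

/-- source state -/
def src : Tr (N + 3) L → Q L
  | .g0 => .g0
  | .g01 => .g0
  | .g1 => .g1
  | .g1p => .g1
  | .op i => .pc i
  | .ta i => .pc i
  | .tb i => .t1 i
  | .tc i => .t1 i
  | .td i => .t2 i
  | .te i => .t2 i
  | .fz => .pc (Fin.last L)
  | .z _ => .z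
  | .zz => .z

/-- target state -/
def tgt : Tr (N + 3) L → Option (Q L)
  | .g0 => some .g0
  | .g01 => some .g1
  | .g1 => some .g1
  | .g1p => some (.pc 0)
  | .op i => some (.pc (tg ins i))
  | .ta i => some (.t1 i)
  | .tb i => some (.t1 i)
  | .tc i => some (.t2 i)
  | .td i => some (.t2 i)
  | .te i => some (.pc (tz ins i))
  | .fz => some .z
  | .z _ => some .z
  | .zz => none

/-- decreased counters -/
def dcs : Tr (N + 3) L → Finset (Ctr (N + 3))
  | .g0 => {.y 0}
  | .g1 => {.y 1}
  | .op i => match ins i with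
    | .inc r _ => {.y r}
    | .dec r _ _ => {.x r}
    | .jmp _ => ∅
  | .tb i => {.y (rg ins i), .d}
  | .td i => {.x (rg ins i), .d}
  | .te _ => {.c}
  | .z r => {.y r}
  | _ => ∅

/-- increased counters -/
def ics : Tr (N + 3) L → Finset (Ctr (N + 3))
  | .g0 => {.x 0}
  | .g1 => {.x 1}
  | .op i => match ins i with
    | .inc r _ => {.x r}
    | .dec r _ _ => {.y r}
    | .jmp _ => ∅
  | .tb i => {.x (rg ins i)}
  | .td i => {.y (rg ins i)}
  | _ => ∅

/-- output -/
def outs : Tr (N + 3) L → ℕ
  | .g0 => 1
  | _ => 0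

/-- the counter system of a register machine -/
def sys : CS (Tr (N + 3) L) (Ctr (N + 3)) where
  dc := dcs ins
  ic := ics ins
  out := outs
  start t := t = .g0 ∨ t = .g01
  nx t t' := Valid ins t' ∧ tgt ins t = some (src t')
  fin t := t = .zz

/-- potential of a configuration -/
def pot (B : ℕ) (q : Q L) (v : Ctr (N + 3) → ℕ) : ℤ :=
  (v .d : ℤ) - 2 * B * v .c + (match q with
    | .t1 i => (v (.x (rg ins i)) : ℤ)
    | .t2 i => B + v (.y (rg ins i))
    | _ => 0)

/-- the registers are complementary -/
def Inv (B : ℕ) (q : Q L) (v : Ctr (N + 3) → ℕ) : Prop :=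
  q ≠ .z → ∀ r, v (.x r) + v (.y r) = B

theorem inv_step {B : ℕ} {t : Tr (N + 3) L} {v : Ctr (N + 3) → ℕ} {w : ℕ} {q : Q L}
    (hdc : ∀ k ∈ dcs ins t, 1 ≤ v k) (hI : Inv B (src t) v) (hq : tgt ins t = some q) :
    Inv B q (upd (sys ins) .d t v w) := by
  intro hz r
  have key : ∀ s, (Ctr.x s ∈ dcs ins t ↔ Ctr.y s ∈ ics ins t) →
      (Ctr.y s ∈ dcs ins t ↔ Ctr.x s ∈ ics ins t) → src t ≠ .z →
      upd (sys ins) .d t v w (.x s) + upd (sys ins) .d t v w (.y s) = B := by
    intro s h1 h2 h3
    have h4 := hI h3 s
    have h5 := hdc (.x s)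
    have h6 := hdc (.y s)
    simp only [upd, sys, reduceCtorEq, if_false]
    by_cases a1 : Ctr.x s ∈ dcs ins t <;> by_cases a2 : Ctr.y s ∈ dcs ins t
    · have b1 := h1.1 a1; have b2 := h2.1 a2
      have := h5 a1; have := h6 a2
      simp only [a1, a2, b1, b2, if_true]; omega
    · have b1 := h1.1 a1; have b2 : Ctr.x s ∉ ics ins t := fun h => a2 (h2.2 h)
      have := h5 a1
      simp only [a1, a2, b1, b2, if_true, if_false]; omega
    · have b1 : Ctr.y s ∉ ics ins t := fun h => a1 (h1.2 h); have b2 := h2.1 a2
      have := h6 a2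
      simp only [a1, a2, b1, b2, if_true, if_false]; omega
    · have b1 : Ctr.y s ∉ ics ins t := fun h => a1 (h1.2 h)
      have b2 : Ctr.x s ∉ ics ins t := fun h => a2 (h2.2 h)
      simp only [a1, a2, b1, b2, if_false]; omega
  cases t with
  | op i =>
    apply key <;> simp only [dcs, ics, src] <;> cases ins i <;> simp
  | zz => simp [tgt] at hq
  | z r =>
    simp only [tgt, Option.some.injEq] at hq
    exact absurd hq.symm hz
  | fz =>
    simp only [tgt, Option.some.injEq] at hq
    exact absurd hq.symm hz
  | _ => apply key <;> simp [dcs, ics, src]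

theorem pot_step {B : ℕ} {t : Tr (N + 3) L} {v : Ctr (N + 3) → ℕ} {w : ℕ} {q : Q L}
    (hdc : ∀ k ∈ dcs ins t, 1 ≤ v k) (hI : Inv B (src t) v) (hq : tgt ins t = some q) :
    pot ins B (src t) v ≤ pot ins B q (upd (sys ins) .d t v w) := by
  cases t with
  | op i =>
    simp only [tgt, Option.some.injEq] at hq
    subst hq
    rcases hi : ins i with ⟨r, q⟩ | ⟨r, q, q'⟩ | q <;>
    · simp [pot, src, upd, sys, dcs, ics, hi]
  | zz => simp [tgt] at hq
  | ta i =>
    simp only [tgt, Option.some.injEq] at hq
    subst hq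
    simp [pot, src, upd, sys, dcs, ics]
    omega
  | tb i =>
    simp only [tgt, Option.some.injEq] at hq
    subst hq
    have h1 := hdc .d (by simp [dcs])
    simp [pot, src, upd, sys, dcs, ics]
    omega
  | tc i =>
    simp only [tgt, Option.some.injEq] at hq
    subst hq
    have h1 := hI (by simp [src]) (rg ins i)
    simp [pot, src, upd, sys, dcs, ics]
    omega
  | td i =>
    simp only [tgt, Option.some.injEq] at hq
    subst hq
    have h1 := hdc .d (by simp [dcs])
    simp [pot, src, upd, sys, dcs, ics]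
    omega
  | te i =>
    simp only [tgt, Option.some.injEq] at hq
    subst hq
    have h1 := hdc .c (by simp [dcs])
    have h2 := hI (by simp [src]) (rg ins i)
    simp [pot, src, upd, sys, dcs, ics]
    obtain ⟨c, hc⟩ : ∃ c, v .c = c + 1 := ⟨v .c - 1, by omega⟩
    rw [hc]
    push_cast
    have : ((v (.y (rg ins i)) : ℕ) : ℤ) ≤ B := by omega
    simp
    nlinarith
  | _ =>
    simp only [tgt, Option.some.injEq] at hq
    subst hq
    simp [pot, src, upd, sys, dcs, ics]

theorem pot_le {B : ℕ} {nz : ℕ → Prop} {t : Tr (N + 3) L} {v : Ctr (N + 3) → ℕ} {o n : ℕ}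
    (h : BRun (sys ins) .d nz t v o n) (hI : Inv B (src t) v) : pot ins B (src t) v ≤ 0 := by
  induction h with
  | @last t v o w h1 h2 h3 h4 =>
    have h5 : t = .zz := h2
    subst h5
    have hc := h4 .c
    have hd := h4 .d
    simp [upd, sys, dcs, ics] at hc hd
    simp [pot, src, hc, hd]
  | @step t t' v o n w h1 h2 h3 h4 ih =>
    have h6 := inv_step ins (w := w) h1 hI h2.2
    exact (pot_step ins (w := w) h1 hI h2.2).trans (ih h6)

/-- what is known about a configuration of a run without wrong tests -/
def Sim (q : Q L) (v : Ctr (N + 3) → ℕ) (o : ℕ) : Prop :=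
  match q with
  | .g0 => v (.x 0) = o ∧ ∀ r, r ≠ 0 → v (.x r) = 0
  | .g1 => v (.x 0) = o ∧ ∀ r, r ≠ 0 → r ≠ 1 → v (.x r) = 0
  | .pc i => ∃ k j, (mstep ins)^[j] (0, st0 (N + 3) o k) = (i, fun r => v (.x r))
  | .t1 i => ∃ k j σ, (mstep ins)^[j] (0, st0 (N + 3) o k) = (i, σ) ∧ σ (rg ins i) = 0 ∧
      ∀ r, r ≠ rg ins i → v (.x r) = σ r
  | .t2 i => ∃ k j σ, (mstep ins)^[j] (0, st0 (N + 3) o k) = (i, σ) ∧ σ (rg ins i) = 0 ∧
      ∀ r, r ≠ rg ins i → v (.x r) = σ r
  | .z => ∃ k j, (mstep ins)^[j] (0, st0 (N + 3) o k) = (Fin.last L, fun r => v (.x r))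

theorem sim_step {B : ℕ} {t : Tr (N + 3) L} {v : Ctr (N + 3) → ℕ} {w o : ℕ} {q : Q L}
    (hv : Valid ins t) (hdc : ∀ k ∈ dcs ins t, 1 ≤ v k) (hI : Inv B (src t) v)
    (hq : tgt ins t = some q) (h0 : 0 ≤ pot ins B (src t) v)
    (h1 : pot ins B q (upd (sys ins) .d t v w) ≤ 0) (hS : Sim ins (src t) v o) :
    Sim ins q (upd (sys ins) .d t v w) (o + outs t) := by
  cases t with
  | g0 =>
    simp only [tgt, Option.some.injEq] at hq
    subst hq
    obtain ⟨s1, s2⟩ := hS
    refine ⟨?_, fun r hr => ?_⟩
    · simp [upd, sys, dcs, ics, outs, s1]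
    · simp [upd, sys, dcs, ics, hr, s2 r hr]
  | g01 =>
    simp only [tgt, Option.some.injEq] at hq
    subst hq
    obtain ⟨s1, s2⟩ := hS
    refine ⟨?_, fun r hr _ => ?_⟩
    · simp [upd, sys, dcs, ics, outs, s1]
    · simp [upd, sys, dcs, ics, s2 r hr]
  | g1 =>
    simp only [tgt, Option.some.injEq] at hq
    subst hq
    obtain ⟨s1, s2⟩ := hS
    refine ⟨?_, fun r hr hr1 => ?_⟩
    · simp [upd, sys, dcs, ics, outs, s1]
    · simp [upd, sys, dcs, ics, hr1, s2 r hr hr1]
  | g1p =>
    simp only [tgt, Option.some.injEq] at hq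
    subst hq
    obtain ⟨s1, s2⟩ := hS
    refine ⟨v (.x 1), 0, ?_⟩
    simp only [iterate_zero, id_eq]
    refine Prod.ext rfl ?_
    funext r
    simp only [st0, upd, sys, dcs, ics, outs, Finset.notMem_empty, if_false, reduceCtorEq,
      Nat.add_zero, Nat.sub_zero]
    split_ifs with a1 a2
    · have : r = 0 := Fin.ext a1
      rw [this, s1]
    · have : r = 1 := by apply Fin.ext; rw [a2]; simp
      rw [this]
    · refine (s2 r ?_ ?_).symm
      · rintro rfl; exact a1 rfl
      · rintro rfl; apply a2; simp
  | op i =>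
    simp only [tgt, Option.some.injEq] at hq
    subst hq
    obtain ⟨k, j, s1⟩ := hS
    refine ⟨k, j + 1, ?_⟩
    simp only [outs, Nat.add_zero]
    rw [iterate_succ_apply', s1]
    rcases hi : ins i with ⟨r, q⟩ | ⟨r, q, q'⟩ | q
    · simp only [mstep, tg, hi]
      refine Prod.ext rfl ?_
      funext s
      by_cases hs : s = r
      · subst hs; simp [upd, sys, dcs, ics, hi]
      · simp [update_of_ne hs, hs, upd, sys, dcs, ics, hi]
    · have h2 : 1 ≤ v (.x r) := hdc _ (by simp [dcs, hi])
      simp only [mstep, tg, hi]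
      rw [if_neg (by omega)]
      refine Prod.ext rfl ?_
      funext s
      by_cases hs : s = r
      · subst hs; simp [upd, sys, dcs, ics, hi]
      · simp [update_of_ne hs, hs, upd, sys, dcs, ics, hi]
    · simp [mstep, tg, upd, sys, dcs, ics, hi]
  | ta i =>
    simp only [tgt, Option.some.injEq] at hq
    subst hq
    obtain ⟨k, j, s1⟩ := hS
    refine ⟨k, j, _, s1, ?_, fun r hr => ?_⟩
    · simp [pot, src, upd, sys, dcs, ics] at h0 h1
      show v (.x (rg ins i)) = 0
      have : ((v (.x (rg ins i)) : ℕ) : ℤ) ≤ 0 := by linarith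
      omega
    · simp [upd, sys, dcs, ics]
  | tb i =>
    simp only [tgt, Option.some.injEq] at hq
    subst hq
    obtain ⟨k, j, σ, s1, s2, s3⟩ := hS
    refine ⟨k, j, σ, s1, s2, fun r hr => ?_⟩
    simp [upd, sys, dcs, ics, hr, s3 r hr]
  | tc i =>
    simp only [tgt, Option.some.injEq] at hq
    subst hq
    obtain ⟨k, j, σ, s1, s2, s3⟩ := hS
    refine ⟨k, j, σ, s1, s2, fun r hr => ?_⟩
    simp [upd, sys, dcs, ics, s3 r hr]
  | td i =>
    simp only [tgt, Option.some.injEq] at hq
    subst hq
    obtain ⟨k, j, σ, s1, s2, s3⟩ := hS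
    refine ⟨k, j, σ, s1, s2, fun r hr => ?_⟩
    simp [upd, sys, dcs, ics, hr, s3 r hr]
  | te i =>
    simp only [tgt, Option.some.injEq] at hq
    subst hq
    obtain ⟨k, j, σ, s1, s2, s3⟩ := hS
    obtain ⟨r, q, q', hi⟩ := hv
    refine ⟨k, j + 1, ?_⟩
    simp only [outs, Nat.add_zero]
    rw [iterate_succ_apply', s1]
    have hr : rg ins i = r := by simp [rg, hi]
    rw [hr] at s2 s3
    have h2 := hI (by simp [src]) r
    have h3 : 1 ≤ v .c := hdc _ (by simp [dcs])
    have hx : v (.x r) = 0 := by
      simp [pot, src, upd, sys, dcs, ics, hr] at h0 h1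
      obtain ⟨c, hc⟩ : ∃ c, v .c = c + 1 := ⟨v .c - 1, by omega⟩
      rw [hc] at h0 h1
      push_cast at h0 h1
      have : (B : ℤ) ≤ ((v (.y r) : ℕ) : ℤ) := by nlinarith
      omega
    simp only [mstep, hi, s2, if_true, tz, upd, sys, dcs, ics]
    refine Prod.ext rfl ?_
    funext s
    by_cases hs : s = r
    · subst hs; simp [hx, s2]
    · simp [s3 s hs]
  | fz =>
    simp only [tgt, Option.some.injEq] at hq
    subst hq
    obtain ⟨k, j, s1⟩ := hS
    refine ⟨k, j, ?_⟩
    simp only [outs, Nat.add_zero]
    rw [s1]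
    simp [upd, sys, dcs, ics]
  | z r =>
    simp only [tgt, Option.some.injEq] at hq
    subst hq
    obtain ⟨k, j, s1⟩ := hS
    refine ⟨k, j, ?_⟩
    simp only [outs, Nat.add_zero]
    rw [s1]
    simp [upd, sys, dcs, ics]
  | zz => simp [tgt] at hq

theorem sound {B : ℕ} {nz : ℕ → Prop} {t : Tr (N + 3) L} {v : Ctr (N + 3) → ℕ} {o n : ℕ}
    (h : BRun (sys ins) .d nz t v o n) (hv : Valid ins t) (hI : Inv B (src t) v)
    (h0 : 0 ≤ pot ins B (src t) v) (hS : Sim ins (src t) v o) :
    ∃ k j, (mstep ins)^[j] (0, st0 (N + 3) n k) = (Fin.last L, fun _ => 0) := by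
  induction h with
  | @last t v o w h1 h2 h3 h4 =>
    have h5 : t = .zz := h2
    subst h5
    obtain ⟨k, j, s1⟩ := hS
    refine ⟨k, j, ?_⟩
    simp only [sys, outs, Nat.add_zero]
    rw [s1]
    refine Prod.ext rfl ?_
    funext r
    have := h4 (.x r)
    simpa [upd, sys, dcs, ics] using this
  | @step t t' v o n w h1 h2 h3 h4 ih =>
    have h6 := inv_step ins (w := w) h1 hI h2.2
    have h7 := pot_le ins h4 h6
    have h8 := pot_step ins (w := w) h1 hI h2.2
    exact ih h2.1 h6 (h0.trans h8) (sim_step ins hv h1 hI h2.2 h0 h7 hS)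

/-- a complete run starts in state `q` -/
def From (q : Q L) (v : Ctr (N + 3) → ℕ) (o n : ℕ) : Prop :=
  ∃ t, Valid ins t ∧ src t = q ∧ BRun (sys ins) .d (fun w => w = 0) t v o n

variable {ins}

theorem From.step {t : Tr (N + 3) L} {v v' : Ctr (N + 3) → ℕ} {o o' n : ℕ} {q q' : Q L}
    (h : From ins q v' o' n) (hv : Valid ins t) (hs : src t = q')
    (hdc : ∀ k ∈ dcs ins t, 1 ≤ v k) (hq : tgt ins t = some q)
    (hv' : ∀ k, upd (sys ins) .d t v 0 k = v' k) (ho : o + outs t = o') :
    From ins q' v o n := by
  obtain ⟨t', h1, h2, h3⟩ := h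
  refine ⟨t, hv, hs, ?_⟩
  have e : upd (sys ins) .d t v 0 = v' := funext hv'
  subst e
  subst ho
  exact BRun.step hdc ⟨h1, by rw [h2]; exact hq⟩ rfl h3

variable (N) in
/-- counter values -/
def cfg (σ ρ : Fin (N + 3) → ℕ) (c d : ℕ) : Ctr (N + 3) → ℕ
  | .x r => σ r
  | .y r => ρ r
  | .c => c
  | .d => d

theorem from_z (o m : ℕ) : ∀ ρ : Fin (N + 3) → ℕ, ∑ r, ρ r = m →
    From ins .z (cfg N (fun _ => 0) ρ 0 0) o o := by
  induction m with
  | zero =>
    intro ρ hρ
    have h0 : ∀ r, ρ r = 0 := by
      intro r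
      exact (Finset.sum_eq_zero_iff.1 hρ) r (Finset.mem_univ r)
    refine ⟨.zz, trivial, rfl, ?_⟩
    refine BRun.last (w := 0) (by simp [sys, dcs]) rfl rfl ?_
    intro k
    cases k <;> simp [upd, sys, dcs, ics, cfg, h0]
  | succ m ih =>
    intro ρ hρ
    obtain ⟨r, hr⟩ : ∃ r, ρ r ≠ 0 := by
      by_contra hcon
      push Not at hcon
      simp [hcon] at hρ
    have h1 := ih (update ρ r (ρ r - 1)) (by
      have := Finset.sum_update_of_mem (Finset.mem_univ r) ρ (ρ r - 1)
      rw [this]
      have h2 := Finset.add_sum_erase Finset.univ ρ (Finset.mem_univ r)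
      rw [Finset.sdiff_singleton_eq_erase]
      omega)
    refine h1.step (t := .z r) trivial rfl ?_ rfl ?_ rfl
    · intro k hk
      simp only [dcs, Finset.mem_singleton] at hk
      subst hk
      simp only [cfg]; omega
    · intro k
      cases k with
      | y s =>
        by_cases hs : s = r
        · subst hs; simp [upd, sys, dcs, ics, cfg]
        · simp [upd, sys, dcs, ics, cfg, hs]
      | _ => simp [upd, sys, dcs, ics, cfg]

theorem from_test {B c o n : ℕ} {i : Fin (L + 1)} {r : Fin (N + 3)} {q q' : Fin (L + 1)}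
    (hi : ins i = .dec r q q') {σ : Fin (N + 3) → ℕ} (h0 : σ r = 0)
    (h : From ins (.pc q') (cfg N σ (fun s => B - σ s) c (2 * B * c)) o n) :
    From ins (.pc i) (cfg N σ (fun s => B - σ s) (c + 1) (2 * B * (c + 1))) o n := by
  have hrg : rg ins i = r := by simp [rg, hi]
  have hV : ∃ r q q', ins i = .dec r q q' := ⟨r, q, q', hi⟩
  have T2 : ∀ a, a ≤ B → From ins (.t2 i) (cfg N (update σ r a)
      (update (fun s => B - σ s) r (B - a)) (c + 1) (2 * B * c + a)) o n := by
    intro a
    induction a with
    | zero =>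
      intro _
      refine h.step (t := .te i) hV rfl ?_ (by simp [tgt, tz, hi]) ?_ rfl
      · intro k hk
        simp only [dcs, Finset.mem_singleton] at hk
        subst hk
        simp only [cfg]; omega
      · intro k
        cases k with
        | x s =>
          by_cases hs : s = r
          · subst hs; simp [upd, sys, dcs, ics, cfg, h0]
          · simp [upd, sys, dcs, ics, cfg, hs]
        | y s =>
          by_cases hs : s = r
          · subst hs; simp [upd, sys, dcs, ics, cfg, h0]
          · simp [upd, sys, dcs, ics, cfg, hs]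
        | _ => simp [upd, sys, dcs, ics, cfg]
    | succ a ih =>
      intro ha
      refine (ih (by omega)).step (t := .td i) hV rfl ?_ rfl ?_ rfl
      · intro k hk
        simp only [dcs, hrg, Finset.mem_insert, Finset.mem_singleton] at hk
        rcases hk with rfl | rfl
        · simp [cfg]
        · simp only [cfg]; omega
      · intro k
        cases k with
        | x s =>
          by_cases hs : s = r
          · subst hs; simp [upd, sys, dcs, ics, cfg, hrg]
          · simp [upd, sys, dcs, ics, cfg, hs, hrg]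
        | y s =>
          by_cases hs : s = r
          · subst hs; simp [upd, sys, dcs, ics, cfg, hrg]; omega
          · simp [upd, sys, dcs, ics, cfg, hs, hrg]
        | c => simp [upd, sys, dcs, ics, cfg]
        | d => simp [upd, sys, dcs, ics, cfg]
  have T1 : ∀ j, j ≤ B → From ins (.t1 i) (cfg N (update σ r (B - j))
      (update (fun s => B - σ s) r j) (c + 1) (2 * B * c + B + j)) o n := by
    intro j
    induction j with
    | zero =>
      intro _
      refine (T2 B le_rfl).step (t := .tc i) hV rfl (by simp [dcs]) rfl ?_ rfl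
      intro k
      cases k with
      | y s =>
        by_cases hs : s = r
        · subst hs; simp [upd, sys, dcs, ics, cfg]
        · simp [upd, sys, dcs, ics, cfg, hs]
      | _ => simp [upd, sys, dcs, ics, cfg]
    | succ j ih =>
      intro hj
      refine (ih (by omega)).step (t := .tb i) hV rfl ?_ rfl ?_ rfl
      · intro k hk
        simp only [dcs, hrg, Finset.mem_insert, Finset.mem_singleton] at hk
        rcases hk with rfl | rfl
        · simp [cfg]
        · simp only [cfg]; omega
      · intro k
        cases k with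
        | x s =>
          by_cases hs : s = r
          · subst hs; simp [upd, sys, dcs, ics, cfg, hrg]; omega
          · simp [upd, sys, dcs, ics, cfg, hs, hrg]
        | y s =>
          by_cases hs : s = r
          · subst hs; simp [upd, sys, dcs, ics, cfg, hrg]
          · simp [upd, sys, dcs, ics, cfg, hs, hrg]
        | c => simp [upd, sys, dcs, ics, cfg]
        | d => simp [upd, sys, dcs, ics, cfg]
  refine (T1 B le_rfl).step (t := .ta i) hV rfl (by simp [dcs]) rfl ?_ rfl
  intro k
  cases k with
  | x s =>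
    by_cases hs : s = r
    · subst hs; simp [upd, sys, dcs, ics, cfg, h0]
    · simp [upd, sys, dcs, ics, cfg, hs]
  | y s =>
    by_cases hs : s = r
    · subst hs; simp [upd, sys, dcs, ics, cfg, h0]
    · simp [upd, sys, dcs, ics, cfg, hs]
  | c => simp [upd, sys, dcs, ics, cfg]
  | d => simp [upd, sys, dcs, ics, cfg]; ring

theorem from_last (hlast : ins (Fin.last L) = .dec (Fin.last (N + 2)) (Fin.last L) (Fin.last L))
    (B o c : ℕ) : From ins (.pc (Fin.last L))
      (cfg N (fun _ => 0) (fun _ => B - 0) c (2 * B * c)) o o := by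
  induction c with
  | zero =>
    refine (from_z o _ (fun _ => B - 0) rfl).step (t := .fz) trivial rfl (by simp [dcs]) rfl ?_ rfl
    intro k
    cases k <;> simp [upd, sys, dcs, ics, cfg]
  | succ c ih => exact from_test hlast (σ := fun _ => 0) rfl ih

theorem from_run (hlast : ins (Fin.last L) = .dec (Fin.last (N + 2)) (Fin.last L) (Fin.last L))
    (B o j : ℕ) : ∀ (q : Fin (L + 1)) (σ : Fin (N + 3) → ℕ) (c : ℕ), (∀ r, σ r + j ≤ B) → j ≤ c →
      (mstep ins)^[j] (q, σ) = (Fin.last L, fun _ => 0) →
      From ins (.pc q) (cfg N σ (fun s => B - σ s) c (2 * B * c)) o o := by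
  induction j with
  | zero =>
    intro q σ c _ _ h
    simp only [iterate_zero, id_eq, Prod.mk.injEq] at h
    obtain ⟨rfl, rfl⟩ := h
    exact from_last hlast B o c
  | succ j ih =>
    intro q σ c hB hc h
    rw [iterate_succ_apply] at h
    rcases hi : ins q with ⟨r, q1⟩ | ⟨r, q1, q2⟩ | q1
    · simp only [mstep, hi] at h
      have hBr := hB r
      have h1 := ih q1 (update σ r (σ r + 1)) c (by
        intro s
        have := hB s
        by_cases hs : s = r
        · subst hs; rw [update_self]; omega
        · rw [update_of_ne hs]; omega) (by omega) h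
      refine h1.step (t := .op q) trivial rfl ?_ (by simp [tgt, tg, hi]) ?_ rfl
      · intro k hk
        simp only [dcs, hi, Finset.mem_singleton] at hk
        subst hk
        simp only [cfg]; omega
      · intro k
        cases k with
        | x s =>
          by_cases hs : s = r
          · subst hs; simp [upd, sys, dcs, ics, cfg, hi]
          · simp [upd, sys, dcs, ics, cfg, hs, hi]
        | y s =>
          by_cases hs : s = r
          · subst hs; simp [upd, sys, dcs, ics, cfg, hi]; omega
          · simp [upd, sys, dcs, ics, cfg, hs, hi]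
        | _ => simp [upd, sys, dcs, ics, cfg, hi]
    · by_cases h0 : σ r = 0
      · simp only [mstep, hi, h0, if_true] at h
        obtain ⟨c, rfl⟩ : ∃ c', c = c' + 1 := ⟨c - 1, by omega⟩
        have h1 := ih q2 σ c (fun s => by have := hB s; omega) (by omega) h
        exact from_test hi h0 h1
      · simp only [mstep, hi, h0, if_false] at h
        have hBr := hB r
        have h1 := ih q1 (update σ r (σ r - 1)) c (by
          intro s
          have := hB s
          by_cases hs : s = r
          · subst hs; rw [update_self]; omega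
          · rw [update_of_ne hs]; omega) (by omega) h
        refine h1.step (t := .op q) trivial rfl ?_ (by simp [tgt, tg, hi]) ?_ rfl
        · intro k hk
          simp only [dcs, hi, Finset.mem_singleton] at hk
          subst hk
          simp only [cfg]; omega
        · intro k
          cases k with
          | x s =>
            by_cases hs : s = r
            · subst hs; simp [upd, sys, dcs, ics, cfg, hi]
            · simp [upd, sys, dcs, ics, cfg, hs, hi]
          | y s =>
            by_cases hs : s = r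
            · subst hs; simp [upd, sys, dcs, ics, cfg, hi]; omega
            · simp [upd, sys, dcs, ics, cfg, hs, hi]
          | _ => simp [upd, sys, dcs, ics, cfg, hi]
    · simp only [mstep, hi] at h
      have h1 := ih q1 σ c (fun s => by have := hB s; omega) (by omega) h
      refine h1.step (t := .op q) trivial rfl (by simp [dcs, hi]) (by simp [tgt, tg, hi]) ?_ rfl
      intro k
      cases k <;> simp [upd, sys, dcs, ics, cfg, hi]

theorem from_g1 {B c n k : ℕ} (hk : k ≤ B)
    (h : From ins (.pc 0) (cfg N (st0 (N + 3) n k) (fun s => B - st0 (N + 3) n k s) c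
      (2 * B * c)) n n) (j : ℕ) : j ≤ k →
    From ins .g1 (cfg N (st0 (N + 3) n (k - j)) (fun s => B - st0 (N + 3) n (k - j) s) c
      (2 * B * c)) n n := by
  induction j with
  | zero =>
    intro _
    refine h.step (t := .g1p) trivial rfl (by simp [dcs]) rfl ?_ rfl
    intro k
    cases k <;> simp [upd, sys, dcs, ics, cfg]
  | succ j ih =>
    intro hj
    have hv1 : ((1 : Fin (N + 3)) : ℕ) = 1 := by simp
    refine (ih (by omega)).step (t := .g1) trivial rfl ?_ rfl ?_ rfl
    · intro k hk
      simp only [dcs, Finset.mem_singleton] at hk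
      subst hk
      simp only [cfg, st0, hv1, if_true]
      simp; omega
    · intro s
      cases s with
      | x s =>
        by_cases hs : s = 1
        · subst hs; simp [upd, sys, dcs, ics, cfg, st0]; omega
        · have : (s : ℕ) ≠ 1 := fun h => hs (by apply Fin.ext; rw [h, hv1])
          simp [upd, sys, dcs, ics, cfg, hs, st0, this]
      | y s =>
        by_cases hs : s = 1
        · subst hs; simp [upd, sys, dcs, ics, cfg, st0]; omega
        · have : (s : ℕ) ≠ 1 := fun h => hs (by apply Fin.ext; rw [h, hv1])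
          simp [upd, sys, dcs, ics, cfg, hs, st0, this]
      | _ => simp [upd, sys, dcs, ics, cfg]

theorem from_g0 {B c n : ℕ} (hk : n ≤ B)
    (h : From ins .g1 (cfg N (st0 (N + 3) n 0) (fun s => B - st0 (N + 3) n 0 s) c
      (2 * B * c)) n n) (j : ℕ) : j ≤ n →
    From ins .g0 (cfg N (st0 (N + 3) (n - j) 0) (fun s => B - st0 (N + 3) (n - j) 0 s) c
      (2 * B * c)) (n - j) n := by
  induction j with
  | zero =>
    intro _
    refine h.step (t := .g01) trivial rfl (by simp [dcs]) rfl ?_ rfl
    intro k
    cases k <;> simp [upd, sys, dcs, ics, cfg]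
  | succ j ih =>
    intro hj
    refine (ih (by omega)).step (t := .g0) trivial rfl ?_ rfl ?_ (by simp [outs]; omega)
    · intro k hk
      simp only [dcs, Finset.mem_singleton] at hk
      subst hk
      simp only [cfg, st0]
      simp; omega
    · intro s
      cases s with
      | x s =>
        by_cases hs : s = 0
        · subst hs; simp [upd, sys, dcs, ics, cfg, st0]; omega
        · have : (s : ℕ) ≠ 0 := fun h => hs (by apply Fin.ext; rw [h]; rfl)
          simp [upd, sys, dcs, ics, cfg, hs, st0, this]
      | y s =>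
        by_cases hs : s = 0
        · subst hs; simp [upd, sys, dcs, ics, cfg, st0]; omega
        · have : (s : ℕ) ≠ 0 := fun h => hs (by apply Fin.ext; rw [h]; rfl)
          simp [upd, sys, dcs, ics, cfg, hs, st0, this]
      | _ => simp [upd, sys, dcs, ics, cfg]

end

/-- emission of counter units in each round of the first phase -/
def em0 {N : ℕ} : Ctr (N + 3) → ℕ
  | .x _ => 0
  | .y _ => 1
  | .c => 1
  | .d => 2

/-- counter values after the first phase with `B` rounds and noise `w` -/
def v0 {K : Type} [DecidableEq K] (d : K) (em : K → ℕ) (B w : ℕ) : K → ℕ :=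
  fun k => em k * B + (if k = d then 2 * B * (B - 1) + w else 0)

/-- Recursively enumerable sets are generated by counter systems with final zero tests only,
started with the budget `2 B ^ 2`. -/
theorem exists_cs (S : Set ℕ) (hS : REPred fun n => n ∈ S) :
    ∃ (T K : Type) (_ : Fintype T) (_ : Fintype K) (_ : DecidableEq K) (A : CS T K) (d : K)
      (em : K → ℕ),
      (∀ n, n ∈ S → ∃ B t, 1 ≤ B ∧ A.start t ∧
        BRun A d (fun w => w = 0) t (v0 d em B 0) 0 n) ∧
      (∀ n B w t, 1 ≤ B → A.start t → BRun A d (fun _ => True) t (v0 d em B w) 0 n → n ∈ S) := by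
  obtain ⟨N, L, ins, hlast, hmem⟩ := exists_machine S hS
  refine ⟨Tr (N + 3) L, Ctr (N + 3), inferInstance, inferInstance, inferInstance, sys ins, .d, em0,
    ?_, ?_⟩
  · intro n hn
    obtain ⟨k, j, hj⟩ := (hmem n).1 hn
    set B := n + k + j + 1 with hB
    have h1 := from_run hlast B n j 0 (st0 (N + 3) n k) B (by
      intro r
      unfold st0
      split_ifs <;> omega) (by omega) hj
    have h2 := from_g1 (by omega) h1 k le_rfl
    rw [Nat.sub_self] at h2
    have h3 := from_g0 (by omega) h2 n le_rfl
    rw [Nat.sub_self] at h3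
    obtain ⟨t, ht1, ht2, ht3⟩ := h3
    refine ⟨B, t, by omega, ?_, ?_⟩
    · cases t <;> simp [src] at ht2
      · exact Or.inl rfl
      · exact Or.inr rfl
    · have e : v0 Ctr.d em0 B 0 = cfg N (st0 (N + 3) 0 0) (fun s => B - st0 (N + 3) 0 0 s) B
          (2 * B * B) := by
        funext k
        have hst : ∀ r, st0 (N + 3) 0 0 r = 0 := by
          intro r; unfold st0; split_ifs <;> rfl
        cases k with
        | x r => simp [v0, em0, cfg, hst]
        | y r => simp [v0, em0, cfg, hst]
        | c => simp [v0, em0, cfg]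
        | d =>
          simp only [v0, em0, cfg, if_true]
          obtain ⟨m, hm⟩ : ∃ m, B = m + 1 := ⟨n + k + j, hB⟩
          rw [hm]
          simp only [Nat.add_sub_cancel]
          ring
      rw [e]
      exact ht3
  · intro n B w t hB hst hrun
    rw [hmem]
    have hsrc : src t = .g0 := by
      rcases hst with rfl | rfl <;> rfl
    have hval : Valid ins t := by
      rcases hst with rfl | rfl <;> trivial
    refine sound ins hrun hval (B := B) ?_ ?_ ?_
    · intro _ r
      simp [v0, em0]
    · rw [hsrc]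
      obtain ⟨m, rfl⟩ : ∃ m, B = m + 1 := ⟨B - 1, by omega⟩
      simp only [pot, v0, em0, if_true, reduceCtorEq, if_false, Nat.add_sub_cancel]
      push_cast
      nlinarith
    · rw [hsrc]
      exact ⟨by simp [v0, em0], fun r _ => by simp [v0, em0]⟩

end Pool.Agent.Helper273.Budget
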