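import Mathlib
import Pool.Agent.Helper273.Budget

/-!
Simple semantics of one region with one catalyst, and the simulation of a counter system.
-/

set_option autoImplicit false

namespace Pool.Agent.Helper273.Sim

open Pool.Agent.Helper273.Budget

/-! ### Simple semantics -/

section Simple

variable {O : Type} (N S : O → Set (Multiset O))

/-- what becomes of an object not served by the catalyst -/
def Ch (a : O) : Set (Multiset O) := {v | v ∈ N a ∨ (N a = ∅ ∧ v = {a})}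

/-- all objects evolve without the catalyst -/
def Ev (A X : Multiset O) : Prop :=
  ∃ V, Multiset.Rel (fun a v => v ∈ Ch N a) A V ∧ X = V.sum

/-- one step: the catalyst is idle (and no object waits for it), or it serves one object -/
def SStep (A X : Multiset O) : Prop :=
  (Ev N A X ∧ ∀ a ∈ A, N a = ∅ → S a = ∅) ∨
  ∃ a A0 v X0, A = a ::ₘ A0 ∧ v ∈ S a ∧ Ev N A0 X0 ∧ X = v + X0

/-- nothing can happen -/
def SHalt (A : Multiset O) : Prop := ∀ a ∈ A, N a = ∅ ∧ S a = ∅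

variable {N S}

theorem ev_add {A B X : Multiset O} :
    Ev N (A + B) X ↔ ∃ XA XB, Ev N A XA ∧ Ev N B XB ∧ X = XA + XB := by
  constructor
  · rintro ⟨V, hV, rfl⟩
    obtain ⟨V1, V2, h1, h2, rfl⟩ := Multiset.rel_add_left.1 hV
    exact ⟨V1.sum, V2.sum, ⟨V1, h1, rfl⟩, ⟨V2, h2, rfl⟩, by rw [Multiset.sum_add]⟩
  · rintro ⟨_, _, ⟨V1, h1, rfl⟩, ⟨V2, h2, rfl⟩, rfl⟩
    exact ⟨V1 + V2, h1.add h2, by rw [Multiset.sum_add]⟩

theorem ev_zero {X : Multiset O} : Ev N 0 X ↔ X = 0 := by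
  constructor
  · rintro ⟨V, hV, rfl⟩
    rw [Multiset.rel_zero_left] at hV
    subst hV; rfl
  · rintro rfl
    exact ⟨0, Multiset.Rel.zero, rfl⟩

theorem ev_single {a : O} {X : Multiset O} : Ev N {a} X ↔ X ∈ Ch N a := by
  constructor
  · rintro ⟨V, hV, rfl⟩
    obtain ⟨b, V', h1, h2, rfl⟩ := Multiset.rel_cons_left.1 hV
    rw [Multiset.rel_zero_left] at h2
    subst h2
    simpa using h1
  · intro h
    exact ⟨{X}, Multiset.Rel.cons h Multiset.Rel.zero, by simp⟩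

theorem ev_cons {a : O} {A X : Multiset O} :
    Ev N (a ::ₘ A) X ↔ ∃ v X', v ∈ Ch N a ∧ Ev N A X' ∧ X = v + X' := by
  rw [← Multiset.singleton_add, ev_add]
  simp only [ev_single]

/-- sum of the images -/
def dtH (w : O → Multiset O) : Multiset O →+ Multiset O :=
  Multiset.sumAddMonoidHom.comp (Multiset.mapAddMonoidHom w)

theorem dtH_single (w : O → Multiset O) (a : O) : dtH w {a} = w a := by
  simp [dtH]

theorem dtH_cons (w : O → Multiset O) (a : O) (A : Multiset O) :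
    dtH w (a ::ₘ A) = w a + dtH w A := by
  simp [dtH]

theorem ev_det {w : O → Multiset O} {A X : Multiset O} (h : ∀ a ∈ A, Ch N a = {w a}) :
    Ev N A X ↔ X = dtH w A := by
  induction A using Multiset.induction_on generalizing X with
  | empty => rw [ev_zero, map_zero]
  | cons a A ih =>
    rw [ev_cons, dtH_cons, h a (Multiset.mem_cons_self a A)]
    constructor
    · rintro ⟨v, X', hv, hX', rfl⟩
      rw [(ih fun b hb => h b (Multiset.mem_cons_of_mem hb)).1 hX', Set.mem_singleton_iff.1 hv]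
    · rintro rfl
      exact ⟨_, _, rfl, (ih fun b hb => h b (Multiset.mem_cons_of_mem hb)).2 rfl, rfl⟩

/-- complete computations of length `s`; the result is the number of objects `z` -/
def RunN [DecidableEq O] (N S : O → Set (Multiset O)) (z : O) : ℕ → Multiset O → ℕ → Prop
  | 0, A, n => SHalt N S A ∧ A.count z = n
  | s + 1, A, n => ∃ A', SStep N S A A' ∧ RunN N S z s A' n

theorem ev_trap {tr : O} (hN : N tr = {{tr}}) {A X : Multiset O} (h : Ev N A X) (ht : tr ∈ A) :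
    tr ∈ X := by
  obtain ⟨A', rfl⟩ := Multiset.exists_cons_of_mem ht
  obtain ⟨v, X', hv, _, rfl⟩ := ev_cons.1 h
  rcases hv with hv | ⟨hv, _⟩
  · rw [hN, Set.mem_singleton_iff] at hv
    subst hv; simp
  · rw [hN] at hv
    exact absurd hv (Set.singleton_ne_empty _)

theorem sstep_trap {tr : O} (hN : N tr = {{tr}}) (hS : S tr = ∅) {A X : Multiset O}
    (h : SStep N S A X) (ht : tr ∈ A) : tr ∈ X := by
  rcases h with ⟨h, _⟩ | ⟨a, A0, v, X0, rfl, hv, hE, rfl⟩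
  · exact ev_trap hN h ht
  · rcases Multiset.mem_cons.1 ht with rfl | ht
    · rw [hS] at hv; exact absurd hv (Set.notMem_empty _)
    · exact Multiset.mem_add.2 (Or.inr (ev_trap hN hE ht))

theorem run_trap [DecidableEq O] {z tr : O} (hN : N tr = {{tr}}) (hS : S tr = ∅) {s n : ℕ} :
    ∀ {A : Multiset O}, RunN N S z s A n → tr ∉ A := by
  induction s with
  | zero =>
    intro A h ht
    have := (h.1 tr ht).1
    rw [hN] at this
    exact Set.singleton_ne_empty _ this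
  | succ s ih =>
    rintro A ⟨A', h1, h2⟩ ht
    exact ih h2 (sstep_trap hN hS h1 ht)

end Simple

/-! ### The objects -/

/-- objects -/
inductive Ob (P K : Type) (m : ℕ)
  | cat
  | trap
  | o
  | f
  | g
  | e1
  | e2
  | e3
  | u (k : K) (i : Fin (m + 1))
  | be (i : Fin (m + 1))
  | ct (p : P) (i : Fin (m + 1))

/-- phases: generation, test, transitions of the counter system -/
inductive Ph (T : Type)
  | gen
  | tst
  | main (t : T)

/-- behaviour of the control in a slot -/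
inductive SK
  | hold
  | dec
  | test

/-- behaviour of the control at one moment -/
inductive Kind
  | hold
  | free
  | freeF
  deriving DecidableEq

/-- moments of a slot -/
def kd0 : SK → ℕ → Kind
  | .hold, _ => .hold
  | .dec, 0 => .freeF
  | .dec, 1 => .free
  | .dec, 3 => .free
  | .dec, _ => .hold
  | .test, 0 => .free
  | .test, _ => .hold

/-- The data of the simulation: a counter system, the counter `d`, the emission in the first phase,
and a numbering of the counters by slots. -/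
structure Data where
  T : Type
  K : Type
  finT : Fintype T
  finK : Fintype K
  decK : DecidableEq K
  A : CS T K
  d : K
  em : K → ℕ
  κ : ℕ
  e : K → ℕ
  e_inj : Function.Injective e
  e_lt : ∀ k, e k < κ
  e_surj : ∀ j, j < κ → ∃ k, e k = j

attribute [instance] Data.finT Data.finK Data.decK

namespace Data

variable (D : Data)

/-- the last moment of a round -/
def m : ℕ := 5 * D.κ

/-- the alphabet -/
abbrev O : Type := Ob (Ph D.T) D.K D.m

open Classical in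
/-- behaviour of the control in a slot -/
noncomputable def slot : Ph D.T → ℕ → SK
  | .gen, _ => .hold
  | .tst, _ => .test
  | .main t, j => if ∃ k ∈ D.A.dc t, D.e k = j then .dec else .hold

/-- behaviour of the control at a moment -/
noncomputable def kd (p : Ph D.T) (i : ℕ) : Kind :=
  if i < D.m then kd0 (D.slot p (i / 5)) (i % 5) else .hold

/-- emitted counter units -/
def eu : Ph D.T → D.K → ℕ
  | .gen, k => D.em k
  | .tst, _ => 0
  | .main t, k => if k ∈ D.A.ic t then 1 else 0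

/-- emitted growing objects -/
def eb : Ph D.T → ℕ
  | .gen => 1
  | _ => 0

/-- output -/
def eo : Ph D.T → ℕ
  | .main t => D.A.out t
  | _ => 0

/-- next phase -/
def nxt : Ph D.T → Ph D.T → Prop
  | .gen, .gen => True
  | .gen, .tst => True
  | .tst, .main t => D.A.start t
  | .main t, .main t' => D.A.nx t t'
  | _, _ => False

/-- final phases -/
def fin : Ph D.T → Prop
  | .main t => D.A.fin t
  | _ => False

/-- a moment as an element of the cycle -/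
def ix (i : ℕ) : Fin (D.m + 1) := Fin.ofNat (D.m + 1) i

theorem ix_succ (i : ℕ) : D.ix (i + 1) = D.ix i + 1 := by
  unfold ix
  apply Fin.ext
  simp [Fin.ofNat, Fin.val_add]

theorem ix_zero : D.ix 0 = 0 := rfl

theorem ix_val {i : ℕ} (h : i ≤ D.m) : ((D.ix i : Fin (D.m + 1)) : ℕ) = i := by
  simp [ix, Fin.ofNat, Nat.mod_eq_of_lt (Nat.lt_succ_of_le h)]

theorem ix_m : D.ix D.m = Fin.last D.m := by
  apply Fin.ext
  rw [D.ix_val le_rfl]; rfl

theorem ix_m_succ : D.ix (D.m + 1) = 0 := by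
  apply Fin.ext
  simp [ix, Fin.ofNat]

theorem ix_ne_last {i : ℕ} (h : i < D.m) : D.ix i ≠ Fin.last D.m := by
  intro h1
  have := congrArg Fin.val h1
  rw [D.ix_val h.le] at this
  simp at this
  omega

/-- units -/
def U (v : D.K → ℕ) (i : ℕ) : Multiset D.O := ∑ k, v k • {Ob.u k (D.ix i)}

/-- the emitted multiset -/
def emit (p : Ph D.T) : Multiset D.O :=
  D.U (D.eu p) 0 + D.eb p • {Ob.be 0} + D.eo p • {Ob.o}

open Classical in
/-- right-hand sides of the rules without catalyst -/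
noncomputable def N : D.O → Set (Multiset D.O)
  | .cat => ∅
  | .trap => {{.trap}}
  | .o => ∅
  | .f => ∅
  | .g => {{.trap}}
  | .e1 => {{.trap}}
  | .e2 => {{.e3}}
  | .e3 => {{.trap}}
  | .u k i => {{.u k (i + 1)}}
  | .be i => if i = Fin.last D.m then {.be 0 ::ₘ 4 • {.u D.d 0}, {.f}} else {{.be (i + 1)}}
  | .ct p i => match D.kd p i with
    | .hold => {{.trap}}
    | .free => {{.ct p (i + 1)}}
    | .freeF => {.ct p (i + 1) ::ₘ {.f}}

/-- right-hand sides of the catalytic rules -/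
noncomputable def S : D.O → Set (Multiset D.O)
  | .f => {{.g}}
  | .g => {0}
  | .e1 => {.e2 ::ₘ {.f}}
  | .e3 => {0}
  | .u k i => {v | (i : ℕ) = 5 * D.e k ∧ v = {.e1}}
  | .ct p i => {v | D.kd p i = .hold ∧ ((i ≠ Fin.last D.m ∧ v = {.ct p (i + 1)}) ∨
      (i = Fin.last D.m ∧ ((∃ p', D.nxt p p' ∧ v = .ct p' 0 ::ₘ D.emit p) ∨
        (D.fin p ∧ v = D.emit p))))}
  | _ => ∅

/-- the control part of a configuration -/
def cp (c : Option (Ph D.T)) (i : ℕ) : Multiset D.O :=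
  match c with
  | none => 0
  | some p => {.ct p (D.ix i)}

/-- configurations -/
def cf (c : Option (Ph D.T)) (i : ℕ) (v : D.K → ℕ) (b k g e1 e2 e3 o : ℕ) : Multiset D.O :=
  D.cp c i + D.U v i + b • {.be (D.ix i)} + k • {.f} + g • {.g} + e1 • {.e1} + e2 • {.e2}
    + e3 • {.e3} + o • {.o}

/-- behaviour of the control, `free` if there is none -/
noncomputable def kdo (c : Option (Ph D.T)) (i : ℕ) : Kind :=
  match c with
  | none => .free
  | some p => D.kd p i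

open Classical in
/-- what becomes of an object not served by the catalyst -/
noncomputable def dt : D.O → Multiset D.O
  | .cat => {.cat}
  | .trap => {.trap}
  | .o => {.o}
  | .f => {.f}
  | .g => {.trap}
  | .e1 => {.trap}
  | .e2 => {.e3}
  | .e3 => {.trap}
  | .u k i => {.u k (i + 1)}
  | .be i => {.be (i + 1)}
  | .ct p i => match D.kd p i with
    | .hold => {.trap}
    | .free => {.ct p (i + 1)}
    | .freeF => .ct p (i + 1) ::ₘ {.f}

theorem ch_eq {a : D.O} (ha : a ≠ .be (Fin.last D.m)) : Ch D.N a = {D.dt a} := by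
  ext v
  cases a with
  | be i =>
    have hi : i ≠ Fin.last D.m := fun h => ha (by rw [h])
    simp [Ch, N, dt, hi]
  | ct p i =>
    simp only [Ch, N, dt]
    cases D.kd p i <;> simp
  | _ => simp [Ch, N, dt]

theorem u_mem {v : D.K → ℕ} {i : ℕ} {a : D.O} (h : a ∈ D.U v i) :
    ∃ k, a = .u k (D.ix i) ∧ v k ≠ 0 := by
  unfold U at h
  rw [Multiset.mem_sum] at h
  obtain ⟨k, _, hk⟩ := h
  rw [Multiset.mem_nsmul] at hk
  exact ⟨k, Multiset.mem_singleton.1 hk.2, hk.1⟩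

theorem mem_U {v : D.K → ℕ} {i : ℕ} {a : D.O} :
    a ∈ D.U v i ↔ ∃ k, a = .u k (D.ix i) ∧ v k ≠ 0 := by
  refine ⟨D.u_mem, ?_⟩
  rintro ⟨k, rfl, hk⟩
  unfold U
  rw [Multiset.mem_sum]
  exact ⟨k, Finset.mem_univ k, Multiset.mem_nsmul.2 ⟨hk, Multiset.mem_singleton_self _⟩⟩

theorem mem_cp {c : Option (Ph D.T)} {i : ℕ} {a : D.O} :
    a ∈ D.cp c i ↔ ∃ p, c = some p ∧ a = .ct p (D.ix i) := by
  cases c <;> simp [cp]

theorem mem_cf {c : Option (Ph D.T)} {i : ℕ} {v : D.K → ℕ} {b k g e1 e2 e3 o : ℕ} {a : D.O} :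
    a ∈ D.cf c i v b k g e1 e2 e3 o ↔ (∃ p, c = some p ∧ a = .ct p (D.ix i)) ∨
      (∃ k, a = .u k (D.ix i) ∧ v k ≠ 0) ∨ (b ≠ 0 ∧ a = .be (D.ix i)) ∨ (k ≠ 0 ∧ a = .f) ∨
      (g ≠ 0 ∧ a = .g) ∨ (e1 ≠ 0 ∧ a = .e1) ∨ (e2 ≠ 0 ∧ a = .e2) ∨ (e3 ≠ 0 ∧ a = .e3) ∨
      (o ≠ 0 ∧ a = .o) := by
  unfold cf
  simp only [Multiset.mem_add, mem_U, mem_cp, Multiset.mem_nsmul, Multiset.mem_singleton,
    or_assoc]

theorem kd_ix {p : Ph D.T} {i : ℕ} (hi : i ≤ D.m) :
    D.kd p ((D.ix i : Fin (D.m + 1)) : ℕ) = D.kd p i := by rw [D.ix_val hi]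

theorem kd_m {p : Ph D.T} : D.kd p D.m = .hold := by simp [kd]

theorem U_wrap (v : D.K → ℕ) : D.U v (D.m + 1) = D.U v 0 := by
  unfold U; rw [ix_m_succ, ix_zero]

theorem U_add (v w : D.K → ℕ) (i : ℕ) : D.U (fun k => v k + w k) i = D.U v i + D.U w i := by
  simp [U, add_nsmul, Finset.sum_add_distrib]

theorem U_single (k0 : D.K) (x i : ℕ) :
    D.U (fun k => if k = k0 then x else 0) i = x • {.u k0 (D.ix i)} := by
  unfold U
  rw [Finset.sum_eq_single k0]
  · simp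
  · intro k _ hk; simp [hk]
  · intro h; exact absurd (Finset.mem_univ _) h

theorem U_zero (i : ℕ) : D.U (fun _ => 0) i = 0 := by simp [U]

theorem dtH_U (v : D.K → ℕ) (i : ℕ) : dtH D.dt (D.U v i) = D.U v (i + 1) := by
  unfold U
  rw [map_sum]
  refine Finset.sum_congr rfl fun k _ => ?_
  rw [map_nsmul, dtH_single]
  simp only [dt, ix_succ]

/-- additional object `f` emitted by the control -/
noncomputable def ff (c : Option (Ph D.T)) (i : ℕ) : ℕ := if D.kdo c i = .freeF then 1 else 0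

theorem dtH_cp_free {c : Option (Ph D.T)} {i : ℕ} (hi : i ≤ D.m) (h : D.kdo c i ≠ .hold) :
    dtH D.dt (D.cp c i) = D.cp c (i + 1) + D.ff c i • {.f} := by
  cases c with
  | none => simp [cp, ff, kdo]
  | some p =>
    simp only [cp, dtH_single, dt, D.kd_ix hi, ff, kdo, ix_succ]
    simp only [kdo] at h
    by_cases hF : D.kd p i = .freeF
    · simp [hF]
    · have hfree : D.kd p i = .free := by
        cases h' : D.kd p i with
        | hold => exact absurd h' h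
        | free => rfl
        | freeF => exact absurd h' hF
      simp [hfree]

theorem dtH_cp_hold {c : Option (Ph D.T)} {i : ℕ} (hi : i ≤ D.m) (h : D.kdo c i = .hold) :
    dtH D.dt (D.cp c i) = {.trap} := by
  cases c with
  | none => simp [kdo] at h
  | some p =>
    simp only [cp, dtH_single, dt, D.kd_ix hi]
    simp only [kdo] at h
    rw [h]

theorem dtH_cf (c : Option (Ph D.T)) (i : ℕ) (v : D.K → ℕ) (b k g e1 e2 e3 o : ℕ) :
    dtH D.dt (D.cf c i v b k g e1 e2 e3 o) = dtH D.dt (D.cp c i) + D.U v (i + 1) +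
      b • {.be (D.ix (i + 1))} + k • {.f} + g • {.trap} + e1 • {.trap} + e2 • {.e3}
      + e3 • {.trap} + o • {.o} := by
  unfold cf
  simp only [map_add, map_nsmul, dtH_single, dtH_U]
  simp only [dt, ix_succ]

theorem be_notMem {c : Option (Ph D.T)} {i : ℕ} {v : D.K → ℕ} {b k g e1 e2 e3 o : ℕ}
    (h : i < D.m ∨ b = 0) : (Ob.be (Fin.last D.m) : D.O) ∉ D.cf c i v b k g e1 e2 e3 o := by
  rw [mem_cf]
  rintro (⟨p, _, h1⟩ | ⟨k, h1, _⟩ | ⟨h2, h1⟩ | ⟨_, h1⟩ | ⟨_, h1⟩ | ⟨_, h1⟩ | ⟨_, h1⟩ | ⟨_, h1⟩ |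
    ⟨_, h1⟩)
  · cases h1
  · cases h1
  · rcases h with h | h
    · injection h1 with h1
      exact D.ix_ne_last h h1.symm
    · exact h2 h
  all_goals cases h1

theorem ev_cf {c : Option (Ph D.T)} {i : ℕ} {v : D.K → ℕ} {b k g e1 e2 e3 o : ℕ}
    {X : Multiset D.O} (h : i < D.m ∨ b = 0) :
    Ev D.N (D.cf c i v b k g e1 e2 e3 o) X ↔
      X = dtH D.dt (D.cp c i) + D.U v (i + 1) +
      b • {.be (D.ix (i + 1))} + k • {.f} + g • {.trap} + e1 • {.trap} + e2 • {.e3}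
      + e3 • {.trap} + o • {.o} := by
  rw [← dtH_cf]
  refine ev_det fun a ha => D.ch_eq ?_
  rintro rfl
  exact D.be_notMem h ha

theorem ev_nb {c : Option (Ph D.T)} {i : ℕ} {v : D.K → ℕ} {b k g e1 e2 e3 o : ℕ}
    {X : Multiset D.O} (hi : i < D.m) (h : Ev D.N (D.cf c i v b k g e1 e2 e3 o) X)
    (ht : Ob.trap ∉ X) : g = 0 ∧ e1 = 0 ∧ e3 = 0 ∧ D.kdo c i ≠ .hold ∧
      X = D.cf c (i + 1) v b (k + D.ff c i) 0 0 0 e2 o := by
  rw [D.ev_cf (Or.inl hi)] at h
  subst h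
  simp only [Multiset.mem_add, not_or, Multiset.mem_nsmul, Multiset.mem_singleton, not_and,
    and_true, ne_eq, not_not] at ht
  obtain ⟨⟨⟨⟨⟨⟨⟨⟨h1, _⟩, _⟩, _⟩, h2⟩, h3⟩, _⟩, h4⟩, _⟩ := ht
  have hk : D.kdo c i ≠ .hold := by
    intro hk
    rw [D.dtH_cp_hold hi.le hk] at h1
    simp at h1
  refine ⟨by simpa using h2, by simpa using h3, by simpa using h4, hk, ?_⟩
  have h2' : g = 0 := by simpa using h2
  have h3' : e1 = 0 := by simpa using h3
  have h4' : e3 = 0 := by simpa using h4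
  subst h2' h3' h4'
  rw [D.dtH_cp_free hi.le hk]
  unfold cf
  simp only [zero_nsmul, add_nsmul]
  abel

theorem ev_nb_mk {c : Option (Ph D.T)} {i : ℕ} {v : D.K → ℕ} {b k e2 o : ℕ}
    (hi : i < D.m) (hk : D.kdo c i ≠ .hold) :
    Ev D.N (D.cf c i v b k 0 0 e2 0 o) (D.cf c (i + 1) v b (k + D.ff c i) 0 0 0 e2 o) := by
  rw [D.ev_cf (Or.inl hi), D.dtH_cp_free hi.le hk]
  unfold cf
  simp only [zero_nsmul, add_nsmul]
  abel

/-- counter values with the units of `s` growing objects added -/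
def gr (v : D.K → ℕ) (s : ℕ) : D.K → ℕ := fun k => v k + (if k = D.d then 4 * s else 0)

theorem ev_be {b : ℕ} {X : Multiset D.O} : Ev D.N (b • {.be (Fin.last D.m)}) X ↔
    ∃ s r, s + r = b ∧ X = s • {.be 0} + (4 * s) • {.u D.d 0} + r • {.f} := by
  induction b generalizing X with
  | zero =>
    rw [zero_nsmul, ev_zero]
    constructor
    · rintro rfl
      exact ⟨0, 0, rfl, by simp⟩
    · rintro ⟨s, r, h, rfl⟩
      obtain ⟨rfl, rfl⟩ : s = 0 ∧ r = 0 := by omega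
      simp
  | succ b ih =>
    rw [succ_nsmul, ev_add]
    simp only [ev_single, ih]
    have hC : Ch D.N (.be (Fin.last D.m)) = {.be 0 ::ₘ 4 • {.u D.d 0}, {.f}} := by
      ext w
      simp only [Ch, N, if_true, Set.mem_ofPred_eq]
      constructor
      · rintro (h | ⟨h, _⟩)
        · exact h
        · exact absurd h (Set.insert_nonempty _ _).ne_empty
      · exact Or.inl
    rw [hC]
    constructor
    · rintro ⟨XA, XB, ⟨s, r, rfl, rfl⟩, hB, rfl⟩
      rcases hB with rfl | hB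
      · refine ⟨s + 1, r, by omega, ?_⟩
        rw [← Multiset.singleton_add, mul_add, add_nsmul, add_nsmul, one_nsmul, mul_one]
        abel
      · rw [Set.mem_singleton_iff] at hB
        subst hB
        refine ⟨s, r + 1, by omega, ?_⟩
        rw [succ_nsmul _ r]
        abel
    · rintro ⟨s, r, hsr, rfl⟩
      rcases s with _ | s
      · obtain ⟨rfl⟩ : r = b + 1 := by omega
        refine ⟨_, _, ⟨0, b, by omega, rfl⟩, Or.inr rfl, ?_⟩
        rw [succ_nsmul _ b]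
        abel
      · refine ⟨_, _, ⟨s, r, by omega, rfl⟩, Or.inl rfl, ?_⟩
        rw [← Multiset.singleton_add, mul_add, add_nsmul, add_nsmul, one_nsmul, mul_one]
        abel

theorem cf_be (c : Option (Ph D.T)) (i : ℕ) (v : D.K → ℕ) (b k g e1 e2 e3 o : ℕ) :
    D.cf c i v b k g e1 e2 e3 o = D.cf c i v 0 k g e1 e2 e3 o + b • {.be (D.ix i)} := by
  unfold cf
  simp only [zero_nsmul]
  abel

theorem ev_b {c : Option (Ph D.T)} {v : D.K → ℕ} {b k g e1 e2 e3 o : ℕ}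
    {X : Multiset D.O} (h : Ev D.N (D.cf c D.m v b k g e1 e2 e3 o) X)
    (ht : Ob.trap ∉ X) : g = 0 ∧ e1 = 0 ∧ e3 = 0 ∧ c = none ∧
      ∃ s r, s + r = b ∧ X = D.cf none 0 (D.gr v s) s (k + r) 0 0 0 e2 o := by
  rw [cf_be, ev_add] at h
  obtain ⟨XA, XB, hA, hB, rfl⟩ := h
  rw [D.ev_cf (Or.inr rfl)] at hA
  subst hA
  rw [D.ix_m, ev_be] at hB
  obtain ⟨s, r, hsr, rfl⟩ := hB
  simp only [Multiset.mem_add, not_or, Multiset.mem_nsmul, Multiset.mem_singleton, not_and,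
    and_true, ne_eq, not_not] at ht
  obtain ⟨⟨⟨⟨⟨⟨⟨⟨⟨h1, _⟩, _⟩, _⟩, h2⟩, h3⟩, _⟩, h4⟩, _⟩, _⟩ := ht
  have hk : c = none := by
    cases c with
    | none => rfl
    | some p =>
      rw [D.dtH_cp_hold le_rfl (by simp [kdo, kd_m])] at h1
      simp at h1
  subst hk
  have h2' : g = 0 := by simpa using h2
  have h3' : e1 = 0 := by simpa using h3
  have h4' : e3 = 0 := by simpa using h4
  subst h2' h3' h4'
  refine ⟨rfl, rfl, rfl, rfl, s, r, hsr, ?_⟩
  unfold cf gr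
  rw [U_add, U_single, U_wrap]
  simp only [zero_nsmul, add_nsmul, cp, map_zero, ix_zero]
  abel

theorem ev_b_mk {v : D.K → ℕ} {b k e2 o s r : ℕ} (hsr : s + r = b) :
    Ev D.N (D.cf none D.m v b k 0 0 e2 0 o) (D.cf none 0 (D.gr v s) s (k + r) 0 0 0 e2 o) := by
  rw [cf_be, ev_add]
  refine ⟨_, _, (D.ev_cf (Or.inr rfl)).2 rfl, by rw [D.ix_m]; exact D.ev_be.2 ⟨s, r, hsr, rfl⟩, ?_⟩
  unfold cf gr
  rw [U_add, U_single, U_wrap]
  simp only [zero_nsmul, add_nsmul, cp, map_zero, ix_zero]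
  abel

/-- one unit of counter `k0` removed -/
def dcr (v : D.K → ℕ) (k0 : D.K) : D.K → ℕ := fun k => v k - (if k = k0 then 1 else 0)

theorem cf_f (c : Option (Ph D.T)) (i : ℕ) (v : D.K → ℕ) (b k g e1 e2 e3 o : ℕ) :
    D.cf c i v b (k + 1) g e1 e2 e3 o = .f ::ₘ D.cf c i v b k g e1 e2 e3 o := by
  unfold cf
  rw [succ_nsmul _ k, ← Multiset.singleton_add]
  abel

theorem cf_g (c : Option (Ph D.T)) (i : ℕ) (v : D.K → ℕ) (b k g e1 e2 e3 o : ℕ) :
    D.cf c i v b k (g + 1) e1 e2 e3 o = .g ::ₘ D.cf c i v b k g e1 e2 e3 o := by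
  unfold cf
  rw [succ_nsmul _ g, ← Multiset.singleton_add]
  abel

theorem cf_e1 (c : Option (Ph D.T)) (i : ℕ) (v : D.K → ℕ) (b k g e1 e2 e3 o : ℕ) :
    D.cf c i v b k g (e1 + 1) e2 e3 o = .e1 ::ₘ D.cf c i v b k g e1 e2 e3 o := by
  unfold cf
  rw [succ_nsmul _ e1, ← Multiset.singleton_add]
  abel

theorem cf_e2 (c : Option (Ph D.T)) (i : ℕ) (v : D.K → ℕ) (b k g e1 e2 e3 o : ℕ) :
    D.cf c i v b k g e1 (e2 + 1) e3 o = .e2 ::ₘ D.cf c i v b k g e1 e2 e3 o := by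
  unfold cf
  rw [succ_nsmul _ e2, ← Multiset.singleton_add]
  abel

theorem cf_e3 (c : Option (Ph D.T)) (i : ℕ) (v : D.K → ℕ) (b k g e1 e2 e3 o : ℕ) :
    D.cf c i v b k g e1 e2 (e3 + 1) o = .e3 ::ₘ D.cf c i v b k g e1 e2 e3 o := by
  unfold cf
  rw [succ_nsmul _ e3, ← Multiset.singleton_add]
  abel

theorem cf_ct (p : Ph D.T) (i : ℕ) (v : D.K → ℕ) (b k g e1 e2 e3 o : ℕ) :
    D.cf (some p) i v b k g e1 e2 e3 o = .ct p (D.ix i) ::ₘ D.cf none i v b k g e1 e2 e3 o := by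
  unfold cf cp
  rw [← Multiset.singleton_add]
  abel

theorem U_dcr {v : D.K → ℕ} {k0 : D.K} (h : v k0 ≠ 0) (i : ℕ) :
    D.U v i = .u k0 (D.ix i) ::ₘ D.U (D.dcr v k0) i := by
  have e : v = fun k => D.dcr v k0 k + (if k = k0 then 1 else 0) := by
    funext k
    unfold dcr
    by_cases hk : k = k0
    · subst hk; simp; omega
    · simp [hk]
  conv_lhs => rw [e]
  rw [U_add, U_single, one_nsmul, ← Multiset.singleton_add, add_comm]

theorem cf_u {v : D.K → ℕ} {k0 : D.K} (h : v k0 ≠ 0) (c : Option (Ph D.T)) (i : ℕ)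
    (b k g e1 e2 e3 o : ℕ) :
    D.cf c i v b k g e1 e2 e3 o = .u k0 (D.ix i) ::ₘ D.cf c i (D.dcr v k0) b k g e1 e2 e3 o := by
  unfold cf
  rw [D.U_dcr h i, ← Multiset.singleton_add, ← Multiset.singleton_add]
  abel

theorem step_nb {c : Option (Ph D.T)} {i : ℕ} {v : D.K → ℕ} {b k g e1 e2 e3 o : ℕ}
    {X : Multiset D.O} (hi : i < D.m)
    (h : SStep D.N D.S (D.cf c i v b k g e1 e2 e3 o) X) (ht : Ob.trap ∉ X) :
    (g = 0 ∧ e1 = 0 ∧ e3 = 0 ∧ D.kdo c i ≠ .hold ∧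
      ((k = 0 ∧ X = D.cf c (i + 1) v b (k + D.ff c i) 0 0 0 e2 o) ∨
       (∃ k', k = k' + 1 ∧ X = D.cf c (i + 1) v b (k' + D.ff c i) 1 0 0 e2 o) ∨
       (∃ k0, i = 5 * D.e k0 ∧ v k0 ≠ 0 ∧
        X = D.cf c (i + 1) (D.dcr v k0) b (k + D.ff c i) 0 1 0 e2 o))) ∨
    (g = 1 ∧ e1 = 0 ∧ e3 = 0 ∧ D.kdo c i ≠ .hold ∧
      X = D.cf c (i + 1) v b (k + D.ff c i) 0 0 0 e2 o) ∨
    (g = 0 ∧ e1 = 1 ∧ e3 = 0 ∧ D.kdo c i ≠ .hold ∧
      X = D.cf c (i + 1) v b (k + D.ff c i + 1) 0 0 1 e2 o) ∨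
    (g = 0 ∧ e1 = 0 ∧ e3 = 1 ∧ D.kdo c i ≠ .hold ∧
      X = D.cf c (i + 1) v b (k + D.ff c i) 0 0 0 e2 o) ∨
    (g = 0 ∧ e1 = 0 ∧ e3 = 0 ∧ D.kdo c i = .hold ∧
      X = D.cf c (i + 1) v b k 0 0 0 e2 o) := by
  rcases h with ⟨h, hw⟩ | ⟨a, A0, w, X0, hA, hw, hE, rfl⟩
  · obtain ⟨h1, h2, h3, h4, h5⟩ := D.ev_nb hi h ht
    have hk : k = 0 := by
      by_contra hk
      have := hw .f (D.mem_cf.2 (by simp [hk])) rfl
      exact absurd this (Set.singleton_ne_empty _)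
    exact Or.inl ⟨h1, h2, h3, h4, Or.inl ⟨hk, h5⟩⟩
  · have ht0 : Ob.trap ∉ X0 := fun h => ht (Multiset.mem_add.2 (Or.inr h))
    have ha : a ∈ D.cf c i v b k g e1 e2 e3 o := by rw [hA]; exact Multiset.mem_cons_self _ _
    rcases D.mem_cf.1 ha with ⟨p, hc, rfl⟩ | ⟨k0, rfl, hk0⟩ | ⟨_, rfl⟩ | ⟨hk, rfl⟩ | ⟨hg, rfl⟩ |
      ⟨he, rfl⟩ | ⟨_, rfl⟩ | ⟨he, rfl⟩ | ⟨_, rfl⟩
    · subst hc
      rw [cf_ct, Multiset.cons_inj_right] at hA
      subst hA
      obtain ⟨h1, h2, h3, h4, h5⟩ := D.ev_nb hi hE ht0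
      obtain ⟨h6, h7⟩ : D.kd p ((D.ix i : Fin (D.m + 1)) : ℕ) = .hold ∧
        ((D.ix i ≠ Fin.last D.m ∧ w = {.ct p (D.ix i + 1)}) ∨
          (D.ix i = Fin.last D.m ∧ ((∃ p', D.nxt p p' ∧ w = .ct p' 0 ::ₘ D.emit p) ∨
        (D.fin p ∧ w = D.emit p)))) := hw
      rcases h7 with ⟨_, h7⟩ | ⟨h7, _⟩
      · refine Or.inr (Or.inr (Or.inr (Or.inr ⟨h1, h2, h3, ?_, ?_⟩)))
        · rw [D.kd_ix hi.le] at h6; exact h6
        · subst h5 h7
          rw [cf_ct, ← ix_succ, ← Multiset.singleton_add]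
          simp [ff, kdo]
      · exact absurd h7 (D.ix_ne_last hi)
    · obtain ⟨h6, h7⟩ : ((D.ix i : Fin (D.m + 1)) : ℕ) = 5 * D.e k0 ∧ w = {.e1} := hw
      rw [D.cf_u hk0, Multiset.cons_inj_right] at hA
      subst hA
      obtain ⟨h1, h2, h3, h4, h5⟩ := D.ev_nb hi hE ht0
      refine Or.inl ⟨h1, h2, h3, h4, Or.inr (Or.inr ⟨k0, ?_, hk0, ?_⟩)⟩
      · rw [D.ix_val hi.le] at h6; exact h6
      · subst h5 h7
        rw [D.cf_e1 _ _ _ _ _ _ 0, Multiset.singleton_add]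
    · exact absurd hw (Set.notMem_empty _)
    · have h7 : w = {.g} := hw
      obtain ⟨k, rfl⟩ : ∃ k', k = k' + 1 := ⟨k - 1, by omega⟩
      rw [cf_f, Multiset.cons_inj_right] at hA
      subst hA
      obtain ⟨h1, h2, h3, h4, h5⟩ := D.ev_nb hi hE ht0
      refine Or.inl ⟨h1, h2, h3, h4, Or.inr (Or.inl ⟨k, rfl, ?_⟩)⟩
      subst h5 h7
      rw [D.cf_g _ _ _ _ _ 0, Multiset.singleton_add]
    · have h7 : w = 0 := hw
      obtain ⟨g, rfl⟩ : ∃ k', g = k' + 1 := ⟨g - 1, by omega⟩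
      rw [cf_g, Multiset.cons_inj_right] at hA
      subst hA
      obtain ⟨h1, h2, h3, h4, h5⟩ := D.ev_nb hi hE ht0
      refine Or.inr (Or.inl ⟨by omega, h2, h3, h4, ?_⟩)
      rw [h5, h7, zero_add]
    · have h7 : w = .e2 ::ₘ {.f} := hw
      obtain ⟨e1, rfl⟩ : ∃ k', e1 = k' + 1 := ⟨e1 - 1, by omega⟩
      rw [cf_e1, Multiset.cons_inj_right] at hA
      subst hA
      obtain ⟨h1, h2, h3, h4, h5⟩ := D.ev_nb hi hE ht0
      refine Or.inr (Or.inr (Or.inl ⟨h1, by omega, h3, h4, ?_⟩))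
      rw [h5, h7, D.cf_e2 _ _ _ _ _ _ _ 0, cf_f, ← Multiset.singleton_add,
        ← Multiset.singleton_add, ← Multiset.singleton_add]
      abel
    · exact absurd hw (Set.notMem_empty _)
    · have h7 : w = 0 := hw
      obtain ⟨e3, rfl⟩ : ∃ k', e3 = k' + 1 := ⟨e3 - 1, by omega⟩
      rw [cf_e3, Multiset.cons_inj_right] at hA
      subst hA
      obtain ⟨h1, h2, h3, h4, h5⟩ := D.ev_nb hi hE ht0
      refine Or.inr (Or.inr (Or.inr (Or.inl ⟨h1, h2, by omega, h4, ?_⟩)))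
      rw [h5, h7, zero_add]
    · exact absurd hw (Set.notMem_empty _)

theorem emit_eq (p : Ph D.T) (v : D.K → ℕ) (b k e2 o s : ℕ) :
    D.emit p + D.cf none 0 (D.gr v s) b k 0 0 0 e2 o =
      D.cf none 0 (fun k => D.gr v s k + D.eu p k) (b + D.eb p) k 0 0 0 e2 (o + D.eo p) := by
  unfold emit cf
  rw [U_add, add_nsmul _ b, add_nsmul _ o, ix_zero]
  abel

theorem step_bc {p : Ph D.T} {v : D.K → ℕ} {b k o : ℕ} {X : Multiset D.O}
    (h : SStep D.N D.S (D.cf (some p) D.m v b k 0 0 0 0 o) X) (ht : Ob.trap ∉ X) :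
    ∃ s r, s + r = b ∧ ∃ c : Option (Ph D.T), ((∃ p', D.nxt p p' ∧ c = some p') ∨
      (D.fin p ∧ c = none)) ∧ X = D.cf c 0 (fun k => D.gr v s k + D.eu p k) (s + D.eb p)
        (k + r) 0 0 0 0 (o + D.eo p) := by
  rcases h with ⟨h, hw⟩ | ⟨a, A0, w, X0, hA, hw, hE, rfl⟩
  · obtain ⟨_, _, _, h4, _⟩ := D.ev_b h ht
    exact absurd h4 (by simp)
  · have ht0 : Ob.trap ∉ X0 := fun h => ht (Multiset.mem_add.2 (Or.inr h))
    have hA' := hA
    rw [cf_ct] at hA
    by_cases hct : a = .ct p (D.ix D.m)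
    · subst hct
      rw [Multiset.cons_inj_right] at hA
      subst hA
      obtain ⟨_, _, _, _, s, r, hsr, h5⟩ := D.ev_b hE ht0
      obtain ⟨h6, h7⟩ : D.kd p ((D.ix D.m : Fin (D.m + 1)) : ℕ) = .hold ∧
        ((D.ix D.m ≠ Fin.last D.m ∧ w = {.ct p (D.ix D.m + 1)}) ∨
          (D.ix D.m = Fin.last D.m ∧ ((∃ p', D.nxt p p' ∧ w = .ct p' 0 ::ₘ D.emit p) ∨
        (D.fin p ∧ w = D.emit p)))) := hw
      rcases h7 with ⟨h7, _⟩ | ⟨_, h7⟩
      · exact absurd D.ix_m h7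
      · refine ⟨s, r, hsr, ?_⟩
        rcases h7 with ⟨p', h8, h9⟩ | ⟨h8, h9⟩
        · refine ⟨some p', Or.inl ⟨p', h8, rfl⟩, ?_⟩
          rw [h5, h9, cf_ct, ← emit_eq, ix_zero, Multiset.cons_add]
        · refine ⟨none, Or.inr ⟨h8, rfl⟩, ?_⟩
          rw [h5, h9, ← emit_eq]
    · have hmem : (Ob.ct p (D.ix D.m) : D.O) ∈ A0 := by
        have : (Ob.ct p (D.ix D.m) : D.O) ∈ a ::ₘ A0 := by
          rw [← hA]; exact Multiset.mem_cons_self _ _
        rcases Multiset.mem_cons.1 this with h | h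
        · exact absurd h.symm hct
        · exact h
      exfalso
      obtain ⟨A1, rfl⟩ := Multiset.exists_cons_of_mem hmem
      obtain ⟨x, X', hx, _, rfl⟩ := ev_cons.1 hE
      have hN : D.N (.ct p (D.ix D.m)) = {{.trap}} := by
        simp only [N]
        rw [D.kd_ix le_rfl, kd_m]
      rcases hx with hx | ⟨hx, _⟩
      · rw [hN, Set.mem_singleton_iff] at hx
        subst hx
        exact ht0 (by simp)
      · rw [hN] at hx
        exact Set.singleton_ne_empty _ hx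

theorem step_bn {v : D.K → ℕ} {b k g o : ℕ} {X : Multiset D.O}
    (h : SStep D.N D.S (D.cf none D.m v b k g 0 0 0 o) X) (ht : Ob.trap ∉ X) :
    ∃ s r g' k', X = D.cf none 0 (D.gr v s) (s + 0 * r) k' g' 0 0 0 o := by
  rcases h with ⟨h, hw⟩ | ⟨a, A0, w, X0, hA, hw, hE, rfl⟩
  · obtain ⟨_, _, _, _, s, r, _, h5⟩ := D.ev_b h ht
    exact ⟨s, r, 0, k + r, by rw [h5]; simp⟩
  · have ht0 : Ob.trap ∉ X0 := fun h => ht (Multiset.mem_add.2 (Or.inr h))
    have ha : a ∈ D.cf none D.m v b k g 0 0 0 o := by rw [hA]; exact Multiset.mem_cons_self _ _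
    rcases D.mem_cf.1 ha with ⟨p, hc, rfl⟩ | ⟨k0, rfl, hk0⟩ | ⟨_, rfl⟩ | ⟨hk, rfl⟩ | ⟨hg, rfl⟩ |
      ⟨he, rfl⟩ | ⟨_, rfl⟩ | ⟨he, rfl⟩ | ⟨_, rfl⟩
    · exact absurd hc (by simp)
    · obtain ⟨h6, h7⟩ : ((D.ix D.m : Fin (D.m + 1)) : ℕ) = 5 * D.e k0 ∧ w = {.e1} := hw
      rw [D.ix_val le_rfl] at h6
      have := D.e_lt k0
      unfold m at h6
      omega
    · exact absurd hw (Set.notMem_empty _)
    · have h7 : w = {.g} := hw
      obtain ⟨k, rfl⟩ : ∃ k', k = k' + 1 := ⟨k - 1, by omega⟩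
      rw [cf_f, Multiset.cons_inj_right] at hA
      subst hA
      obtain ⟨_, _, _, _, s, r, _, h5⟩ := D.ev_b hE ht0
      refine ⟨s, r, 1, k + r, ?_⟩
      rw [h5, h7, D.cf_g _ _ _ _ _ 0, Multiset.singleton_add]
      simp
    · have h7 : w = 0 := hw
      obtain ⟨g, rfl⟩ : ∃ k', g = k' + 1 := ⟨g - 1, by omega⟩
      rw [cf_g, Multiset.cons_inj_right] at hA
      subst hA
      obtain ⟨_, _, _, _, s, r, _, h5⟩ := D.ev_b hE ht0
      refine ⟨s, r, 0, k + r, ?_⟩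
      rw [h5, h7, zero_add]
      simp
    · exact absurd rfl he
    · exact absurd hw (Set.notMem_empty _)
    · exact absurd rfl he
    · exact absurd hw (Set.notMem_empty _)

noncomputable instance decOb {P K : Type} {m : ℕ} : DecidableEq (Ob P K m) := Classical.decEq _

/-- complete computations of length `s` with result `n` -/
def Run (s : ℕ) (A : Multiset D.O) (n : ℕ) : Prop := RunN D.N D.S Ob.o s A n

theorem run_step {s n : ℕ} {A : Multiset D.O} (h : D.Run s A n) (hA : ¬ SHalt D.N D.S A) :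
    ∃ s' X, s = s' + 1 ∧ SStep D.N D.S A X ∧ Ob.trap ∉ X ∧ D.Run s' X n := by
  cases s with
  | zero => exact absurd h.1 hA
  | succ s =>
    obtain ⟨X, h1, h2⟩ := h
    exact ⟨s, X, rfl, h1, run_trap (tr := Ob.trap) rfl rfl h2, h2⟩

theorem not_halt_of_mem {A : Multiset D.O} {a : D.O} (ha : a ∈ A) (hN : (D.N a).Nonempty) :
    ¬ SHalt D.N D.S A := by
  intro h
  have := (h a ha).1
  rw [this] at hN
  exact Set.not_nonempty_empty hN

theorem N_ct (p : Ph D.T) (i : Fin (D.m + 1)) : (D.N (.ct p i)).Nonempty := by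
  simp only [N]
  split <;> exact Set.singleton_nonempty _

theorem not_halt_ct (p : Ph D.T) (i : ℕ) (v : D.K → ℕ) (b k g e1 e2 e3 o : ℕ) :
    ¬ SHalt D.N D.S (D.cf (some p) i v b k g e1 e2 e3 o) :=
  D.not_halt_of_mem (D.mem_cf.2 (Or.inl ⟨p, rfl, rfl⟩)) (D.N_ct p _)

theorem run_nb {s n : ℕ} {c : Option (Ph D.T)} {i : ℕ} {v : D.K → ℕ} {b k g e1 e2 e3 o : ℕ}
    (h : D.Run s (D.cf c i v b k g e1 e2 e3 o) n) (hi : i < D.m)
    (hne : ¬ SHalt D.N D.S (D.cf c i v b k g e1 e2 e3 o)) :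
    ∃ s', s' < s ∧ ∃ X, D.Run s' X n ∧
    ((g = 0 ∧ e1 = 0 ∧ e3 = 0 ∧ D.kdo c i ≠ .hold ∧
      ((k = 0 ∧ X = D.cf c (i + 1) v b (k + D.ff c i) 0 0 0 e2 o) ∨
       (∃ k', k = k' + 1 ∧ X = D.cf c (i + 1) v b (k' + D.ff c i) 1 0 0 e2 o) ∨
       (∃ k0, i = 5 * D.e k0 ∧ v k0 ≠ 0 ∧
        X = D.cf c (i + 1) (D.dcr v k0) b (k + D.ff c i) 0 1 0 e2 o))) ∨
    (g = 1 ∧ e1 = 0 ∧ e3 = 0 ∧ D.kdo c i ≠ .hold ∧
      X = D.cf c (i + 1) v b (k + D.ff c i) 0 0 0 e2 o) ∨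
    (g = 0 ∧ e1 = 1 ∧ e3 = 0 ∧ D.kdo c i ≠ .hold ∧
      X = D.cf c (i + 1) v b (k + D.ff c i + 1) 0 0 1 e2 o) ∨
    (g = 0 ∧ e1 = 0 ∧ e3 = 1 ∧ D.kdo c i ≠ .hold ∧
      X = D.cf c (i + 1) v b (k + D.ff c i) 0 0 0 e2 o) ∨
    (g = 0 ∧ e1 = 0 ∧ e3 = 0 ∧ D.kdo c i = .hold ∧
      X = D.cf c (i + 1) v b k 0 0 0 e2 o)) := by
  obtain ⟨s', X, rfl, h1, h2, h3⟩ := D.run_step h hne
  exact ⟨s', by omega, X, h3, D.step_nb hi h1 h2⟩

theorem run_hold {s n : ℕ} {p : Ph D.T} {i : ℕ} {v : D.K → ℕ} {b k e2 o : ℕ}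
    (h : D.Run s (D.cf (some p) i v b k 0 0 e2 0 o) n) (hi : i < D.m) (hk : D.kd p i = .hold) :
    ∃ s', s' < s ∧ D.Run s' (D.cf (some p) (i + 1) v b k 0 0 0 e2 o) n := by
  obtain ⟨s', hs, X, hX, hd⟩ := D.run_nb h hi (D.not_halt_ct _ _ _ _ _ _ _ _ _ _)
  refine ⟨s', hs, ?_⟩
  rcases hd with ⟨_, _, _, h4, _⟩ | ⟨h1, _⟩ | ⟨_, h1, _⟩ | ⟨_, _, h1, _⟩ | ⟨_, _, _, _, rfl⟩
  · exact absurd hk h4
  · omega
  · omega
  · omega
  · exact hX

theorem run_g {s n : ℕ} {c : Option (Ph D.T)} {i : ℕ} {v : D.K → ℕ} {b k o e3 : ℕ}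
    (h : D.Run s (D.cf c i v b k 1 0 0 e3 o) n) (hi : i < D.m) :
    D.kdo c i ≠ .hold ∧ e3 = 0 ∧
    ∃ s', s' < s ∧ D.Run s' (D.cf c (i + 1) v b (k + D.ff c i) 0 0 0 0 o) n := by
  obtain ⟨s', hs, X, hX, hd⟩ := D.run_nb h hi
    (D.not_halt_of_mem (a := .g) (D.mem_cf.2 (by simp)) (Set.singleton_nonempty _))
  rcases hd with ⟨h1, _⟩ | ⟨_, _, h3, h4, rfl⟩ | ⟨h1, _⟩ | ⟨h1, _⟩ | ⟨h1, _⟩
  · omega
  · exact ⟨h4, h3, s', hs, hX⟩
  · omega
  · omega
  · omega

theorem run_e1 {s n : ℕ} {c : Option (Ph D.T)} {i : ℕ} {v : D.K → ℕ} {b k o : ℕ}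
    (h : D.Run s (D.cf c i v b k 0 1 0 0 o) n) (hi : i < D.m) :
    D.kdo c i ≠ .hold ∧
    ∃ s', s' < s ∧ D.Run s' (D.cf c (i + 1) v b (k + D.ff c i + 1) 0 0 1 0 o) n := by
  obtain ⟨s', hs, X, hX, hd⟩ := D.run_nb h hi
    (D.not_halt_of_mem (a := .e1) (D.mem_cf.2 (by simp)) (Set.singleton_nonempty _))
  rcases hd with ⟨_, h1, _⟩ | ⟨_, h1, _⟩ | ⟨_, _, _, h4, rfl⟩ | ⟨_, h1, _⟩ | ⟨_, h1, _⟩
  · omega
  · omega
  · exact ⟨h4, s', hs, hX⟩
  · omega
  · omega

theorem run_e3 {s n : ℕ} {c : Option (Ph D.T)} {i : ℕ} {v : D.K → ℕ} {b k o : ℕ}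
    (h : D.Run s (D.cf c i v b k 0 0 0 1 o) n) (hi : i < D.m) :
    D.kdo c i ≠ .hold ∧
    ∃ s', s' < s ∧ D.Run s' (D.cf c (i + 1) v b (k + D.ff c i) 0 0 0 0 o) n := by
  obtain ⟨s', hs, X, hX, hd⟩ := D.run_nb h hi
    (D.not_halt_of_mem (a := .e3) (D.mem_cf.2 (by simp)) (Set.singleton_nonempty _))
  rcases hd with ⟨_, _, h1, _⟩ | ⟨_, _, h1, _⟩ | ⟨_, _, h1, _⟩ | ⟨_, _, _, h4, rfl⟩ | ⟨_, _, h1, _⟩
  · omega
  · omega
  · omega
  · exact ⟨h4, s', hs, hX⟩
  · omega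

theorem run_free {s n : ℕ} {c : Option (Ph D.T)} {i : ℕ} {v : D.K → ℕ} {b k e2 o : ℕ}
    (h : D.Run s (D.cf c i v b k 0 0 e2 0 o) n) (hi : i < D.m)
    (hne : ¬ SHalt D.N D.S (D.cf c i v b k 0 0 e2 0 o)) (hk : D.kdo c i ≠ .hold) :
    (k = 0 ∧ ∃ s', s' < s ∧ D.Run s' (D.cf c (i + 1) v b (k + D.ff c i) 0 0 0 e2 o) n) ∨
    (∃ k', k = k' + 1 ∧
      ∃ s', s' < s ∧ D.Run s' (D.cf c (i + 1) v b (k' + D.ff c i) 1 0 0 e2 o) n) ∨
    (∃ k0, i = 5 * D.e k0 ∧ v k0 ≠ 0 ∧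
      ∃ s', s' < s ∧ D.Run s' (D.cf c (i + 1) (D.dcr v k0) b (k + D.ff c i) 0 1 0 e2 o) n) := by
  obtain ⟨s', hs, X, hX, hd⟩ := D.run_nb h hi hne
  rcases hd with ⟨_, _, _, _, ⟨h1, rfl⟩ | ⟨k', h1, rfl⟩ | ⟨k0, h1, h2, rfl⟩⟩ | ⟨h1, _⟩ |
    ⟨_, h1, _⟩ | ⟨_, _, h1, _⟩ | ⟨_, _, _, h4, _⟩
  · exact Or.inl ⟨h1, s', hs, hX⟩
  · exact Or.inr (Or.inl ⟨k', h1, s', hs, hX⟩)
  · exact Or.inr (Or.inr ⟨k0, h1, h2, s', hs, hX⟩)
  · omega
  · omega
  · omega
  · exact absurd h4 hk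

theorem kd_slot {p : Ph D.T} {j r : ℕ} (hj : j < D.κ) (hr : r < 5) :
    D.kd p (5 * j + r) = kd0 (D.slot p j) r := by
  unfold kd m
  rw [if_pos (by omega)]
  congr 1
  · congr 1; omega
  · omega

theorem slot_hold {s n : ℕ} {p : Ph D.T} {j : ℕ} {v : D.K → ℕ} {b k o : ℕ}
    (h : D.Run s (D.cf (some p) (5 * j) v b k 0 0 0 0 o) n) (hj : j < D.κ)
    (hs : D.slot p j = .hold) :
    ∃ s', s' < s ∧ D.Run s' (D.cf (some p) (5 * (j + 1)) v b k 0 0 0 0 o) n := by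
  have hm : 5 * j + 5 ≤ D.m := by unfold m; omega
  have hk : ∀ r, r < 5 → D.kd p (5 * j + r) = .hold := by
    intro r hr
    rw [D.kd_slot hj hr, hs]; rfl
  obtain ⟨s1, l1, h1⟩ := D.run_hold h (by omega) (hk 0 (by omega))
  obtain ⟨s2, l2, h2⟩ := D.run_hold h1 (by omega) (hk 1 (by omega))
  obtain ⟨s3, l3, h3⟩ := D.run_hold h2 (by omega) (hk 2 (by omega))
  obtain ⟨s4, l4, h4⟩ := D.run_hold h3 (by omega) (hk 3 (by omega))
  obtain ⟨s5, l5, h5⟩ := D.run_hold h4 (by omega) (hk 4 (by omega))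
  exact ⟨s5, by omega, h5⟩

theorem slot_test {s n : ℕ} {p : Ph D.T} {j : ℕ} {v : D.K → ℕ} {b k o : ℕ}
    (h : D.Run s (D.cf (some p) (5 * j) v b k 0 0 0 0 o) n) (hj : j < D.κ)
    (hs : D.slot p j = .test) :
    k = 0 ∧ ∃ s', s' < s ∧ D.Run s' (D.cf (some p) (5 * (j + 1)) v b 0 0 0 0 0 o) n := by
  have hm : 5 * j + 5 ≤ D.m := by unfold m; omega
  have hk : ∀ r, r < 5 → r ≠ 0 → D.kd p (5 * j + r) = .hold := by
    intro r hr hr0
    rw [D.kd_slot hj hr, hs]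
    unfold kd0
    split <;> simp_all
  have hk0 : D.kd p (5 * j) = .free := by
    have := D.kd_slot (p := p) hj (r := 0) (by omega)
    rw [hs] at this
    exact this
  have hff : D.ff (some p) (5 * j) = 0 := by simp [ff, kdo, hk0]
  have hk1 : D.kdo (some p) (5 * j + 1) = .hold := hk 1 (by omega) (by omega)
  rcases D.run_free h (by omega) (D.not_halt_ct _ _ _ _ _ _ _ _ _ _)
    (by simp [kdo, hk0]) with ⟨h0, s1, l1, h1⟩ | ⟨k', h0, s1, l1, h1⟩ | ⟨k0, h0, _, s1, l1, h1⟩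
  · subst h0
    rw [hff] at h1
    obtain ⟨s2, l2, h2⟩ := D.run_hold h1 (by omega) (hk 1 (by omega) (by omega))
    obtain ⟨s3, l3, h3⟩ := D.run_hold h2 (by omega) (hk 2 (by omega) (by omega))
    obtain ⟨s4, l4, h4⟩ := D.run_hold h3 (by omega) (hk 3 (by omega) (by omega))
    obtain ⟨s5, l5, h5⟩ := D.run_hold h4 (by omega) (hk 4 (by omega) (by omega))
    exact ⟨rfl, s5, by omega, h5⟩
  · exact absurd hk1 (D.run_g h1 (by omega)).1
  · exact absurd hk1 (D.run_e1 h1 (by omega)).1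

theorem slot_dec {s n : ℕ} {p : Ph D.T} {j : ℕ} {v : D.K → ℕ} {b k o : ℕ}
    (h : D.Run s (D.cf (some p) (5 * j) v b k 0 0 0 0 o) n) (hj : j < D.κ)
    (hs : D.slot p j = .dec) :
    ∃ k0, D.e k0 = j ∧ v k0 ≠ 0 ∧
      ∃ s', s' < s ∧ D.Run s' (D.cf (some p) (5 * (j + 1)) (D.dcr v k0) b (k + 2) 0 0 0 0 o) n := by
  have hm : 5 * j + 5 ≤ D.m := by unfold m; omega
  have k0 : D.kdo (some p) (5 * j) = .freeF := by
    have := D.kd_slot (p := p) hj (r := 0) (by omega)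
    rw [hs] at this
    exact this
  have k1 : D.kdo (some p) (5 * j + 1) = .free := by
    have := D.kd_slot (p := p) hj (r := 1) (by omega)
    rw [hs] at this
    exact this
  have k2 : D.kdo (some p) (5 * j + 1 + 1) = .hold := by
    have := D.kd_slot (p := p) hj (r := 2) (by omega)
    rw [hs] at this
    exact this
  have k3 : D.kdo (some p) (5 * j + 1 + 1 + 1) = .free := by
    have := D.kd_slot (p := p) hj (r := 3) (by omega)
    rw [hs] at this
    exact this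
  have k4 : D.kdo (some p) (5 * j + 1 + 1 + 1 + 1) = .hold := by
    have := D.kd_slot (p := p) hj (r := 4) (by omega)
    rw [hs] at this
    exact this
  have f0 : D.ff (some p) (5 * j) = 1 := by simp [ff, k0]
  have f1 : D.ff (some p) (5 * j + 1) = 0 := by simp [ff, k1]
  have f3 : D.ff (some p) (5 * j + 1 + 1 + 1) = 0 := by simp [ff, k3]
  rcases D.run_free h (by omega) (D.not_halt_ct _ _ _ _ _ _ _ _ _ _)
    (by simp [k0]) with ⟨h0, s1, l1, h1⟩ | ⟨k', h0, s1, l1, h1⟩ | ⟨q, h0, hq, s1, l1, h1⟩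
  · rw [f0, h0] at h1
    rcases D.run_free h1 (by omega) (D.not_halt_ct _ _ _ _ _ _ _ _ _ _)
      (by simp [k1]) with ⟨h0, s2, l2, h2⟩ | ⟨k', h0, s2, l2, h2⟩ | ⟨q, h0, _, s2, l2, h2⟩
    · omega
    · exact absurd k2 (D.run_g h2 (by omega)).1
    · omega
  · rw [f0] at h1
    obtain ⟨_, _, s2, l2, h2⟩ := D.run_g h1 (by omega)
    rw [f1] at h2
    obtain ⟨s3, l3, h3⟩ := D.run_hold h2 (by omega) k2
    rcases D.run_free h3 (by omega) (D.not_halt_ct _ _ _ _ _ _ _ _ _ _)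
      (by simp [k3]) with ⟨h0, s4, l4, h4⟩ | ⟨k', h0, s4, l4, h4⟩ | ⟨q, h0, _, s4, l4, h4⟩
    · omega
    · exact absurd k4 (D.run_g h4 (by omega)).1
    · omega
  · rw [f0] at h1
    obtain ⟨_, s2, l2, h2⟩ := D.run_e1 h1 (by omega)
    rw [f1] at h2
    obtain ⟨s3, l3, h3⟩ := D.run_hold h2 (by omega) k2
    obtain ⟨_, s4, l4, h4⟩ := D.run_e3 h3 (by omega)
    rw [f3] at h4
    obtain ⟨s5, l5, h5⟩ := D.run_hold h4 (by omega) k4
    exact ⟨q, by omega, hq, s5, by omega, h5⟩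

theorem count_o (c : Option (Ph D.T)) (i : ℕ) (v : D.K → ℕ) (b k g e1 e2 e3 o : ℕ) :
    (D.cf c i v b k g e1 e2 e3 o).count .o = o := by
  have h1 : (D.cp c i).count .o = 0 := by
    rw [Multiset.count_eq_zero, mem_cp]
    rintro ⟨p, _, h⟩; cases h
  have h2 : (D.U v i).count .o = 0 := by
    rw [Multiset.count_eq_zero, mem_U]
    rintro ⟨p, h, _⟩; cases h
  unfold cf
  simp [Multiset.count_add, Multiset.count_nsmul, h1, h2]

theorem ev_halt {A X : Multiset D.O} (hA : SHalt D.N D.S A) (h : Ev D.N A X) : X = A := by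
  have h1 : ∀ a ∈ A, Ch D.N a = {({a} : Multiset D.O)} := by
    intro a ha
    ext w
    simp [Ch, (hA a ha).1]
  rw [ev_det (w := fun a => {a}) h1] at h
  rw [h]
  clear h h1 hA
  induction A using Multiset.induction_on with
  | empty => rfl
  | cons a A ih => rw [dtH_cons, ih, Multiset.singleton_add]

theorem run_halt {s n : ℕ} : ∀ {A : Multiset D.O}, SHalt D.N D.S A → D.Run s A n →
    n = A.count .o := by
  induction s with
  | zero => intro A _ h; exact h.2.symm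
  | succ s ih =>
    rintro A hA ⟨X, h1, h2⟩
    rcases h1 with ⟨h1, _⟩ | ⟨a, A0, w, X0, rfl, hw, _, rfl⟩
    · have := D.ev_halt hA h1
      subst this
      exact ih hA h2
    · have := (hA a (Multiset.mem_cons_self _ _)).2
      rw [this] at hw
      exact absurd hw (Set.notMem_empty _)

theorem kdo_none (i : ℕ) : D.kdo none i = .free := rfl

theorem ff_none (i : ℕ) : D.ff none i = 0 := by simp [ff, kdo]

theorem κ_pos : 0 < D.κ := lt_of_le_of_lt (Nat.zero_le _) (D.e_lt D.d)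

theorem run_end (s : ℕ) : ∀ (i : ℕ), i ≤ D.m → ∀ (v : D.K → ℕ) (b k g o n : ℕ),
    D.Run s (D.cf none i v b k g 0 0 0 o) n → (∀ q, v q = 0) ∧ n = o := by
  induction s using Nat.strong_induction_on with
  | _ s ih =>
    intro i him v b k g o n h
    by_cases hH : SHalt D.N D.S (D.cf none i v b k g 0 0 0 o)
    · have h1 := D.run_halt hH h
      rw [count_o] at h1
      refine ⟨fun q => ?_, h1⟩
      by_contra hq
      have := (hH (.u q (D.ix i)) (D.mem_cf.2 (Or.inr (Or.inl ⟨q, rfl, hq⟩)))).1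
      exact absurd this (Set.singleton_ne_empty _)
    · rcases him.lt_or_eq with hi | rfl
      · rcases g with _ | g
        · rcases D.run_free h hi hH (by simp [kdo]) with ⟨_, s1, l1, h1⟩ |
            ⟨k', _, s1, l1, h1⟩ | ⟨q, hq, _, s1, l1, h1⟩
          · exact ih s1 l1 _ (by omega) _ _ _ _ _ _ h1
          · exact ih s1 l1 _ (by omega) _ _ _ _ _ _ h1
          · exfalso
            have hqk := D.e_lt q
            have him : i + 3 < D.m := by unfold m; omega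
            obtain ⟨_, s2, l2, h2⟩ := D.run_e1 h1 (by omega)
            rw [ff_none, ff_none] at h2
            rcases D.run_free h2 (by omega) (D.not_halt_of_mem (a := .e2) (D.mem_cf.2 (by simp))
              (Set.singleton_nonempty _)) (by simp [kdo]) with ⟨h0, _⟩ |
              ⟨k', _, s3, l3, h3⟩ | ⟨q', hq', _⟩
            · omega
            · have := (D.run_g h3 (by omega)).2.1
              omega
            · omega
        · rcases g with _ | g
          · obtain ⟨_, _, s1, l1, h1⟩ := D.run_g h hi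
            exact ih s1 l1 _ (by omega) _ _ _ _ _ _ h1
          · exfalso
            obtain ⟨s', _, X, _, hd⟩ := D.run_nb h hi hH
            rcases hd with ⟨h1, _⟩ | ⟨h1, _⟩ | ⟨h1, _⟩ | ⟨h1, _⟩ | ⟨h1, _⟩ <;> omega
      · obtain ⟨s', X, rfl, h1, h2, h3⟩ := D.run_step h hH
        obtain ⟨s1, r, g', k', rfl⟩ := D.step_bn h1 h2
        obtain ⟨h4, h5⟩ := ih s' (by omega) 0 (by omega) _ _ _ _ _ _ h3
        refine ⟨fun q => ?_, h5⟩
        have := h4 q
        unfold gr at this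
        omega

theorem round_hold {s n : ℕ} {p : Ph D.T} {v : D.K → ℕ} {b k o : ℕ}
    (hp : ∀ j, D.slot p j = .hold) (h : D.Run s (D.cf (some p) 0 v b k 0 0 0 0 o) n) :
    ∀ j, j ≤ D.κ → ∃ s', s' ≤ s ∧ D.Run s' (D.cf (some p) (5 * j) v b k 0 0 0 0 o) n := by
  intro j
  induction j with
  | zero => intro _; exact ⟨s, le_rfl, h⟩
  | succ j ih =>
    intro hj
    obtain ⟨s1, l1, h1⟩ := ih (by omega)
    obtain ⟨s2, l2, h2⟩ := D.slot_hold h1 (by omega) (hp j)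
    exact ⟨s2, by omega, h2⟩

theorem round_test {s n : ℕ} {p : Ph D.T} {v : D.K → ℕ} {b k o : ℕ}
    (hp : ∀ j, D.slot p j = .test) (h : D.Run s (D.cf (some p) 0 v b k 0 0 0 0 o) n) :
    ∀ j, j + 1 ≤ D.κ → k = 0 ∧
      ∃ s', s' ≤ s ∧ D.Run s' (D.cf (some p) (5 * (j + 1)) v b 0 0 0 0 0 o) n := by
  intro j
  induction j with
  | zero =>
    intro hj
    obtain ⟨h0, s1, l1, h1⟩ := D.slot_test (j := 0) h (by omega) (hp 0)
    exact ⟨h0, s1, by omega, h1⟩
  | succ j ih =>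
    intro hj
    obtain ⟨h0, s1, l1, h1⟩ := ih (by omega)
    obtain ⟨_, s2, l2, h2⟩ := D.slot_test h1 (by omega) (hp (j + 1))
    exact ⟨h0, s2, by omega, h2⟩

theorem slot_main_dec {t : D.T} {q : D.K} (hq : q ∈ D.A.dc t) :
    D.slot (.main t) (D.e q) = .dec := by
  simp only [slot]
  rw [if_pos ⟨q, hq, rfl⟩]

theorem slot_main_hold {t : D.T} {j : ℕ} (hq : ∀ q ∈ D.A.dc t, D.e q ≠ j) :
    D.slot (.main t) j = .hold := by
  simp only [slot]
  rw [if_neg]
  rintro ⟨q, h1, h2⟩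
  exact hq q h1 h2

/-- counter values after the first `j` slots -/
def vj (t : D.T) (v : D.K → ℕ) (j : ℕ) : D.K → ℕ :=
  fun q => v q - (if q ∈ D.A.dc t ∧ D.e q < j then 1 else 0)

theorem vj_zero (t : D.T) (v : D.K → ℕ) : D.vj t v 0 = v := by
  funext q; simp [vj]

theorem vj_succ_dec {t : D.T} {v : D.K → ℕ} {q : D.K} (hq : q ∈ D.A.dc t) :
    D.dcr (D.vj t v (D.e q)) q = D.vj t v (D.e q + 1) := by
  funext q'
  unfold dcr vj
  by_cases h : q' = q
  · subst h; simp [hq]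
  · have h1 : D.e q' ≠ D.e q := fun h2 => h (D.e_inj h2)
    have h2 : D.e q' < D.e q + 1 ↔ D.e q' < D.e q := by omega
    simp [h, h2]

theorem vj_succ_hold {t : D.T} {v : D.K → ℕ} {j : ℕ} (hq : ∀ q ∈ D.A.dc t, D.e q ≠ j) :
    D.vj t v j = D.vj t v (j + 1) := by
  funext q'
  unfold vj
  by_cases h : q' ∈ D.A.dc t
  · have h1 := hq q' h
    have h2 : D.e q' < j + 1 ↔ D.e q' < j := by omega
    simp [h2]
  · simp [h]

theorem round_main {s n : ℕ} {t : D.T} {v : D.K → ℕ} {b k o : ℕ}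
    (h : D.Run s (D.cf (some (.main t)) 0 v b k 0 0 0 0 o) n) :
    ∀ j, j ≤ D.κ → (∀ q ∈ D.A.dc t, D.e q < j → 1 ≤ v q) ∧ ∃ s' k', s' ≤ s ∧
      D.Run s' (D.cf (some (.main t)) (5 * j) (D.vj t v j) b k' 0 0 0 0 o) n := by
  intro j
  induction j with
  | zero =>
    intro _
    refine ⟨fun q _ h => absurd h (Nat.not_lt_zero _), s, k, le_rfl, ?_⟩
    rw [vj_zero]; exact h
  | succ j ih =>
    intro hj
    obtain ⟨h0, s1, k1, l1, h1⟩ := ih (by omega)
    by_cases hq : ∃ q ∈ D.A.dc t, D.e q = j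
    · obtain ⟨q, hq, rfl⟩ := hq
      obtain ⟨q', h2, h3, s2, l2, h4⟩ := D.slot_dec h1 (by omega) (D.slot_main_dec hq)
      obtain rfl := D.e_inj h2
      refine ⟨?_, s2, k1 + 2, by omega, ?_⟩
      · intro r hr hrj
        rcases Nat.lt_succ_iff_lt_or_eq.1 hrj with h | h
        · exact h0 r hr h
        · obtain rfl := D.e_inj h
          simp [vj] at h3
          omega
      · rw [vj_succ_dec D hq] at h4
        exact h4
    · push Not at hq
      obtain ⟨s2, l2, h4⟩ := D.slot_hold h1 (by omega) (D.slot_main_hold hq)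
      refine ⟨?_, s2, k1, by omega, ?_⟩
      · intro r hr hrj
        have := hq r hr
        exact h0 r hr (by omega)
      · rw [vj_succ_hold D hq] at h4
        exact h4

theorem run_bc {s n : ℕ} {p : Ph D.T} {v : D.K → ℕ} {b k o : ℕ}
    (h : D.Run s (D.cf (some p) D.m v b k 0 0 0 0 o) n) :
    ∃ s', s' < s ∧ ∃ x r, x + r = b ∧ ∃ c : Option (Ph D.T), ((∃ p', D.nxt p p' ∧ c = some p') ∨
      (D.fin p ∧ c = none)) ∧ D.Run s' (D.cf c 0 (fun k => D.gr v x k + D.eu p k) (x + D.eb p)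
        (k + r) 0 0 0 0 (o + D.eo p)) n := by
  obtain ⟨s', X, rfl, h1, h2, h3⟩ := D.run_step h (D.not_halt_ct _ _ _ _ _ _ _ _ _ _)
  obtain ⟨x, r, hxr, c, hc, rfl⟩ := D.step_bc h1 h2
  exact ⟨s', by omega, x, r, hxr, c, hc, h3⟩

theorem upd_eq (t : D.T) (v : D.K → ℕ) (x : ℕ) :
    (fun k => D.gr (D.vj t v D.κ) x k + D.eu (.main t) k) = upd D.A D.d t v (4 * x) := by
  funext q
  unfold gr vj eu upd
  have h : D.e q < D.κ := D.e_lt q
  simp only [h, and_true]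
  omega

theorem run_main (s : ℕ) : ∀ (t : D.T) (v : D.K → ℕ) (b k o n : ℕ),
    D.Run s (D.cf (some (.main t)) 0 v b k 0 0 0 0 o) n →
    BRun D.A D.d (fun _ => True) t v o n := by
  induction s using Nat.strong_induction_on with
  | _ s ih =>
    intro t v b k o n h
    obtain ⟨h0, s1, k1, l1, h1⟩ := D.round_main h D.κ le_rfl
    have h1' : D.Run s1 (D.cf (some (.main t)) D.m (D.vj t v D.κ) b k1 0 0 0 0 o) n := h1
    obtain ⟨s2, l2, x, r, _, c, hc, h2⟩ := D.run_bc h1'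
    rw [upd_eq] at h2
    have hdc : ∀ q ∈ D.A.dc t, 1 ≤ v q := fun q hq => h0 q hq (D.e_lt q)
    rcases hc with ⟨p', h3, rfl⟩ | ⟨h3, rfl⟩
    · cases p' with
      | gen => exact absurd h3 (by simp [nxt])
      | tst => exact absurd h3 (by simp [nxt])
      | main t' => exact BRun.step hdc h3 trivial (ih s2 (by omega) _ _ _ _ _ _ h2)
    · obtain ⟨h4, h5⟩ := D.run_end s2 0 (Nat.zero_le _) _ _ _ _ _ _ h2
      rw [h5]
      exact BRun.last hdc h3 trivial h4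

theorem run_tst {s n : ℕ} {v : D.K → ℕ} {b k o : ℕ}
    (h : D.Run s (D.cf (some .tst) 0 v b k 0 0 0 0 o) n) :
    k = 0 ∧ ∃ x t, D.A.start t ∧ BRun D.A D.d (fun _ => True) t (D.gr v x) o n := by
  have hκ := D.κ_pos
  obtain ⟨h0, s1, l1, h1⟩ := D.round_test (p := .tst) (fun _ => rfl) h (D.κ - 1) (by omega)
  refine ⟨h0, ?_⟩
  have e : D.κ - 1 + 1 = D.κ := by omega
  rw [e] at h1
  have h1' : D.Run s1 (D.cf (some .tst) D.m v b 0 0 0 0 0 o) n := h1
  obtain ⟨s2, l2, x, r, _, c, hc, h2⟩ := D.run_bc h1'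
  rcases hc with ⟨p', h3, rfl⟩ | ⟨h3, rfl⟩
  · cases p' with
    | gen => exact absurd h3 (by simp [nxt])
    | tst => exact absurd h3 (by simp [nxt])
    | main t' =>
      have h4 := D.run_main s2 _ _ _ _ _ _ h2
      refine ⟨x, t', h3, ?_⟩
      simpa [eu, eo] using h4
  · exact absurd h3 (by simp [fin])

theorem run_gen (s : ℕ) : ∀ (i x b k : ℕ), b + k = i → (k = 0 → x = 2 * i * (i - 1)) →
    ∀ n, D.Run s (D.cf (some .gen) 0 (fun q => D.em q * i + (if q = D.d then x else 0)) b k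
      0 0 0 0 0) n →
    ∃ B w t, 1 ≤ B ∧ D.A.start t ∧ BRun D.A D.d (fun _ => True) t (v0 D.d D.em B w) 0 n := by
  induction s using Nat.strong_induction_on with
  | _ s ih =>
    intro i x b k hbk hx n h
    obtain ⟨s1, l1, h1⟩ := D.round_hold (p := .gen) (fun _ => rfl) h D.κ le_rfl
    have h1' : D.Run s1 (D.cf (some .gen) D.m
      (fun q => D.em q * i + (if q = D.d then x else 0)) b k 0 0 0 0 0) n := h1
    obtain ⟨s2, l2, y, r, hyr, c, hc, h2⟩ := D.run_bc h1'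
    have e : (fun q => D.gr (fun q => D.em q * i + (if q = D.d then x else 0)) y q
        + D.eu .gen q) = fun q => D.em q * (i + 1) + (if q = D.d then x + 4 * y else 0) := by
      funext q
      unfold gr eu
      by_cases hq : q = D.d
      · simp only [hq, if_true]; ring
      · simp only [hq, if_false]; ring
    rw [e] at h2
    have hk' : k + r = 0 → x + 4 * y = 2 * (i + 1) * (i + 1 - 1) := by
      intro h0
      obtain ⟨rfl, rfl⟩ : k = 0 ∧ r = 0 := by omega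
      rw [hx rfl]
      obtain rfl : y = i := by omega
      rcases y with _ | y
      · rfl
      · simp only [Nat.add_sub_cancel]; ring
    rcases hc with ⟨p', h3, rfl⟩ | ⟨h3, rfl⟩
    · cases p' with
      | gen => exact ih s2 (by omega) (i + 1) (x + 4 * y) (y + 1) (k + r) (by omega) hk' n h2
      | tst =>
        obtain ⟨h4, z, t, h5, h6⟩ := D.run_tst h2
        refine ⟨i + 1, 4 * z, t, by omega, h5, ?_⟩
        have e2 : D.gr (fun q => D.em q * (i + 1) + (if q = D.d then x + 4 * y else 0)) z =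
            v0 D.d D.em (i + 1) (4 * z) := by
          funext q
          unfold gr v0
          rw [hk' h4]
          by_cases hq : q = D.d
          · simp only [hq, if_true]; ring
          · simp only [hq, if_false]
        rw [e2] at h6
        exact h6
      | main t => exact absurd h3 (by simp [nxt])
    · exact absurd h3 (by simp [fin])

/-- the initial configuration -/
def start : Multiset D.O := D.cf (some .gen) 0 (fun _ => 0) 0 0 0 0 0 0 0

/-- Soundness of the simulation. -/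
theorem sound {s n : ℕ} (h : D.Run s D.start n) :
    ∃ B w t, 1 ≤ B ∧ D.A.start t ∧ BRun D.A D.d (fun _ => True) t (v0 D.d D.em B w) 0 n := by
  refine D.run_gen s 0 0 0 0 rfl (fun _ => rfl) n ?_
  have e : (fun q => D.em q * 0 + (if q = D.d then 0 else 0)) = fun _ => 0 := by
    funext q; simp
  rw [e]
  exact h

/-! ### Completeness -/

/-- some complete computation has result `n` -/
def Acc (A : Multiset D.O) (n : ℕ) : Prop := ∃ s, D.Run s A n

theorem Acc.step {D : Data} {A X : Multiset D.O} {n : ℕ} (h : D.Acc X n)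
    (hs : SStep D.N D.S A X) : D.Acc A n := by
  obtain ⟨s, h⟩ := h
  exact ⟨s + 1, X, hs, h⟩

theorem mk_idle {c : Option (Ph D.T)} {i : ℕ} {v : D.K → ℕ} {b o : ℕ} (hi : i < D.m)
    (hk : D.kdo c i ≠ .hold) :
    SStep D.N D.S (D.cf c i v b 0 0 0 0 0 o) (D.cf c (i + 1) v b (D.ff c i) 0 0 0 0 o) := by
  left
  constructor
  · have := D.ev_nb_mk (c := c) (v := v) (b := b) (k := 0) (e2 := 0) (o := o) hi hk
    rwa [zero_add] at this
  · intro a ha hN
    rcases D.mem_cf.1 ha with ⟨p, hc, rfl⟩ | ⟨k0, rfl, hk0⟩ | ⟨_, rfl⟩ | ⟨hk, rfl⟩ | ⟨hg, rfl⟩ |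
      ⟨he, rfl⟩ | ⟨_, rfl⟩ | ⟨he, rfl⟩ | ⟨_, rfl⟩
    · exact absurd hN (D.N_ct p _).ne_empty
    · exact absurd hN (Set.singleton_ne_empty _)
    · rfl
    · exact absurd rfl hk
    · exact absurd rfl hg
    · exact absurd rfl he
    · rfl
    · exact absurd rfl he
    · rfl

theorem mk_hold {p : Ph D.T} {i : ℕ} {v : D.K → ℕ} {b k e2 o : ℕ} (hi : i < D.m)
    (hk : D.kd p i = .hold) :
    SStep D.N D.S (D.cf (some p) i v b k 0 0 e2 0 o)
      (D.cf (some p) (i + 1) v b k 0 0 0 e2 o) := by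
  right
  refine ⟨_, _, _, _, D.cf_ct p i v b k 0 0 e2 0 o,
    (⟨by rw [D.kd_ix hi.le]; exact hk, Or.inl ⟨D.ix_ne_last hi, rfl⟩⟩ :
      ({.ct p (D.ix i + 1)} : Multiset D.O) ∈ D.S (.ct p (D.ix i))),
    D.ev_nb_mk (c := none) hi (by simp [kdo]), ?_⟩
  rw [ff_none, cf_ct, ← ix_succ, Multiset.singleton_add]
  rfl

theorem mk_f {c : Option (Ph D.T)} {i : ℕ} {v : D.K → ℕ} {b k o : ℕ} (hi : i < D.m)
    (hk : D.kdo c i ≠ .hold) :
    SStep D.N D.S (D.cf c i v b (k + 1) 0 0 0 0 o)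
      (D.cf c (i + 1) v b (k + D.ff c i) 1 0 0 0 o) := by
  right
  refine ⟨_, _, _, _, D.cf_f c i v b k 0 0 0 0 o, (rfl : ({.g} : Multiset D.O) ∈ D.S .f),
    D.ev_nb_mk hi hk, ?_⟩
  rw [D.cf_g _ _ _ _ _ 0, Multiset.singleton_add]

theorem mk_g {c : Option (Ph D.T)} {i : ℕ} {v : D.K → ℕ} {b k o : ℕ} (hi : i < D.m)
    (hk : D.kdo c i ≠ .hold) :
    SStep D.N D.S (D.cf c i v b k 1 0 0 0 o)
      (D.cf c (i + 1) v b (k + D.ff c i) 0 0 0 0 o) := by
  right
  refine ⟨_, _, _, _, D.cf_g c i v b k 0 0 0 0 o, (rfl : (0 : Multiset D.O) ∈ D.S .g),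
    D.ev_nb_mk hi hk, ?_⟩
  rw [zero_add]

theorem mk_e1 {c : Option (Ph D.T)} {i : ℕ} {v : D.K → ℕ} {b k o : ℕ} (hi : i < D.m)
    (hk : D.kdo c i ≠ .hold) :
    SStep D.N D.S (D.cf c i v b k 0 1 0 0 o)
      (D.cf c (i + 1) v b (k + D.ff c i + 1) 0 0 1 0 o) := by
  right
  refine ⟨_, _, _, _, D.cf_e1 c i v b k 0 0 0 0 o,
    (rfl : (.e2 ::ₘ {.f} : Multiset D.O) ∈ D.S .e1), D.ev_nb_mk hi hk, ?_⟩
  rw [D.cf_e2 _ _ _ _ _ _ _ 0, cf_f, ← Multiset.singleton_add,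
    ← Multiset.singleton_add, ← Multiset.singleton_add]
  abel

theorem mk_e3 {c : Option (Ph D.T)} {i : ℕ} {v : D.K → ℕ} {b k o : ℕ} (hi : i < D.m)
    (hk : D.kdo c i ≠ .hold) :
    SStep D.N D.S (D.cf c i v b k 0 0 0 1 o)
      (D.cf c (i + 1) v b (k + D.ff c i) 0 0 0 0 o) := by
  right
  refine ⟨_, _, _, _, D.cf_e3 c i v b k 0 0 0 0 o, (rfl : (0 : Multiset D.O) ∈ D.S .e3),
    D.ev_nb_mk hi hk, ?_⟩
  rw [zero_add]

theorem mk_u {c : Option (Ph D.T)} {q : D.K} {v : D.K → ℕ} {b k o : ℕ}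
    (hi : 5 * D.e q < D.m) (hk : D.kdo c (5 * D.e q) ≠ .hold) (hv : v q ≠ 0) :
    SStep D.N D.S (D.cf c (5 * D.e q) v b k 0 0 0 0 o)
      (D.cf c (5 * D.e q + 1) (D.dcr v q) b (k + D.ff c (5 * D.e q)) 0 1 0 0 o) := by
  right
  refine ⟨_, _, _, _, D.cf_u hv c _ b k 0 0 0 0 o,
    (⟨D.ix_val hi.le, rfl⟩ : ({.e1} : Multiset D.O) ∈ D.S (.u q (D.ix (5 * D.e q)))),
    D.ev_nb_mk hi hk, ?_⟩
  rw [D.cf_e1 _ _ _ _ _ _ 0, Multiset.singleton_add]

theorem mk_bc {p p' : Ph D.T} {v : D.K → ℕ} {b k o x r : ℕ} (hp : D.nxt p p') (hx : x + r = b) :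
    SStep D.N D.S (D.cf (some p) D.m v b k 0 0 0 0 o)
      (D.cf (some p') 0 (fun k => D.gr v x k + D.eu p k) (x + D.eb p) (k + r) 0 0 0 0
        (o + D.eo p)) := by
  right
  refine ⟨_, _, _, _, D.cf_ct p D.m v b k 0 0 0 0 o,
    (⟨by rw [D.kd_ix le_rfl, kd_m], Or.inr ⟨D.ix_m, Or.inl ⟨p', hp, rfl⟩⟩⟩ :
      (.ct p' 0 ::ₘ D.emit p : Multiset D.O) ∈ D.S (.ct p (D.ix D.m))),
    D.ev_b_mk hx, ?_⟩
  rw [cf_ct, ← emit_eq, ix_zero, Multiset.cons_add]

theorem mk_bf {p : Ph D.T} {v : D.K → ℕ} {b k o x r : ℕ} (hp : D.fin p) (hx : x + r = b) :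
    SStep D.N D.S (D.cf (some p) D.m v b k 0 0 0 0 o)
      (D.cf none 0 (fun k => D.gr v x k + D.eu p k) (x + D.eb p) (k + r) 0 0 0 0
        (o + D.eo p)) := by
  right
  refine ⟨_, _, _, _, D.cf_ct p D.m v b k 0 0 0 0 o,
    (⟨by rw [D.kd_ix le_rfl, kd_m], Or.inr ⟨D.ix_m, Or.inr ⟨hp, rfl⟩⟩⟩ :
      (D.emit p : Multiset D.O) ∈ D.S (.ct p (D.ix D.m))),
    D.ev_b_mk hx, ?_⟩
  rw [← emit_eq]

theorem acc_hold {p : Ph D.T} {j : ℕ} {v : D.K → ℕ} {b k o n : ℕ} (hj : j < D.κ)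
    (hs : D.slot p j = .hold)
    (h : D.Acc (D.cf (some p) (5 * (j + 1)) v b k 0 0 0 0 o) n) :
    D.Acc (D.cf (some p) (5 * j) v b k 0 0 0 0 o) n := by
  have hm : 5 * j + 5 ≤ D.m := by unfold m; omega
  have hk : ∀ r, r < 5 → D.kd p (5 * j + r) = .hold := by
    intro r hr
    rw [D.kd_slot hj hr, hs]; rfl
  have h5 : D.Acc (D.cf (some p) (5 * j + 4 + 1) v b k 0 0 0 0 o) n := h
  have h4 := h5.step (D.mk_hold (e2 := 0) (by omega) (hk 4 (by omega)))
  have h3 := Acc.step h4 (D.mk_hold (e2 := 0) (i := 5 * j + 3) (by omega) (hk 3 (by omega)))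
  have h2 := Acc.step h3 (D.mk_hold (e2 := 0) (i := 5 * j + 2) (by omega) (hk 2 (by omega)))
  have h1 := Acc.step h2 (D.mk_hold (e2 := 0) (i := 5 * j + 1) (by omega) (hk 1 (by omega)))
  exact Acc.step h1 (D.mk_hold (e2 := 0) (i := 5 * j) (by omega) (hk 0 (by omega)))

theorem acc_test {p : Ph D.T} {j : ℕ} {v : D.K → ℕ} {b o n : ℕ} (hj : j < D.κ)
    (hs : D.slot p j = .test)
    (h : D.Acc (D.cf (some p) (5 * (j + 1)) v b 0 0 0 0 0 o) n) :
    D.Acc (D.cf (some p) (5 * j) v b 0 0 0 0 0 o) n := by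
  have hm : 5 * j + 5 ≤ D.m := by unfold m; omega
  have hk : ∀ r, r < 5 → r ≠ 0 → D.kd p (5 * j + r) = .hold := by
    intro r hr hr0
    rw [D.kd_slot hj hr, hs]
    unfold kd0
    split <;> simp_all
  have hk0 : D.kd p (5 * j) = .free := by
    have := D.kd_slot (p := p) hj (r := 0) (by omega)
    rw [hs] at this
    exact this
  have hff : D.ff (some p) (5 * j) = 0 := by simp [ff, kdo, hk0]
  have h5 : D.Acc (D.cf (some p) (5 * j + 4 + 1) v b 0 0 0 0 0 o) n := h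
  have h4 := h5.step (D.mk_hold (e2 := 0) (by omega) (hk 4 (by omega) (by omega)))
  have h3 := Acc.step h4 (D.mk_hold (e2 := 0) (i := 5 * j + 3) (by omega)
    (hk 3 (by omega) (by omega)))
  have h2 := Acc.step h3 (D.mk_hold (e2 := 0) (i := 5 * j + 2) (by omega)
    (hk 2 (by omega) (by omega)))
  have h1 := Acc.step h2 (D.mk_hold (e2 := 0) (i := 5 * j + 1) (by omega)
    (hk 1 (by omega) (by omega)))
  have h0 := D.mk_idle (c := some p) (i := 5 * j) (v := v) (b := b) (o := o) (by omega)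
    (by simp [kdo, hk0])
  rw [hff] at h0
  exact Acc.step h1 h0

theorem acc_dec {p : Ph D.T} {q : D.K} {v : D.K → ℕ} {b k o n : ℕ}
    (hs : D.slot p (D.e q) = .dec) (hv : v q ≠ 0)
    (h : D.Acc (D.cf (some p) (5 * (D.e q + 1)) (D.dcr v q) b (k + 2) 0 0 0 0 o) n) :
    D.Acc (D.cf (some p) (5 * D.e q) v b k 0 0 0 0 o) n := by
  have hj := D.e_lt q
  have hm : 5 * D.e q + 5 ≤ D.m := by unfold m; omega
  have k0 : D.kdo (some p) (5 * D.e q) = .freeF := by
    have := D.kd_slot (p := p) hj (r := 0) (by omega)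
    rw [hs] at this
    exact this
  have k1 : D.kdo (some p) (5 * D.e q + 1) = .free := by
    have := D.kd_slot (p := p) hj (r := 1) (by omega)
    rw [hs] at this
    exact this
  have k2 : D.kd p (5 * D.e q + 1 + 1) = .hold := by
    have := D.kd_slot (p := p) hj (r := 2) (by omega)
    rw [hs] at this
    exact this
  have k3 : D.kdo (some p) (5 * D.e q + 1 + 1 + 1) = .free := by
    have := D.kd_slot (p := p) hj (r := 3) (by omega)
    rw [hs] at this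
    exact this
  have k4 : D.kd p (5 * D.e q + 1 + 1 + 1 + 1) = .hold := by
    have := D.kd_slot (p := p) hj (r := 4) (by omega)
    rw [hs] at this
    exact this
  have f0 : D.ff (some p) (5 * D.e q) = 1 := by simp [ff, k0]
  have f1 : D.ff (some p) (5 * D.e q + 1) = 0 := by simp [ff, k1]
  have f3 : D.ff (some p) (5 * D.e q + 1 + 1 + 1) = 0 := by simp [ff, k3]
  have h5 : D.Acc (D.cf (some p) (5 * D.e q + 1 + 1 + 1 + 1 + 1) (D.dcr v q) b (k + 2)
    0 0 0 0 o) n := h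
  have h4 := h5.step (D.mk_hold (e2 := 0) (by omega) k4)
  have s3 := D.mk_e3 (c := some p) (i := 5 * D.e q + 1 + 1 + 1) (v := D.dcr v q) (b := b)
    (k := k + 2) (o := o) (by omega) (by simp [k3])
  rw [f3] at s3
  have h3 := h4.step s3
  have h2 := h3.step (D.mk_hold (e2 := 1) (by omega) k2)
  have s1 := D.mk_e1 (c := some p) (i := 5 * D.e q + 1) (v := D.dcr v q) (b := b)
    (k := k + 1) (o := o) (by omega) (by simp [k1])
  rw [f1] at s1
  have h1 := h2.step s1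
  have s0 := D.mk_u (c := some p) (q := q) (v := v) (b := b)
    (k := k) (o := o) (by omega) (by simp [k0]) hv
  rw [f0] at s0
  exact h1.step s0

theorem acc_round_main {t : D.T} {v : D.K → ℕ} {b o n : ℕ}
    (hdc : ∀ q ∈ D.A.dc t, 1 ≤ v q)
    (h : ∀ k, D.Acc (D.cf (some (.main t)) D.m (D.vj t v D.κ) b k 0 0 0 0 o) n) :
    ∀ j, j ≤ D.κ → ∀ k,
      D.Acc (D.cf (some (.main t)) (5 * (D.κ - j)) (D.vj t v (D.κ - j)) b k 0 0 0 0 o) n := by
  intro j
  induction j with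
  | zero => intro _ k; exact h k
  | succ j ih =>
    intro hj k
    have hjj : D.κ - j = D.κ - (j + 1) + 1 := by omega
    have ih := ih (by omega)
    rw [hjj] at ih
    by_cases hq : ∃ q ∈ D.A.dc t, D.e q = D.κ - (j + 1)
    · obtain ⟨q, hq, hqj⟩ := hq
      rw [← hqj] at ih ⊢
      rw [← vj_succ_dec D hq] at ih
      refine D.acc_dec (D.slot_main_dec hq) ?_ (ih (k + 2))
      have := hdc q hq
      simp [vj]
      omega
    · push Not at hq
      rw [← vj_succ_hold D hq] at ih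
      exact D.acc_hold (by omega) (D.slot_main_hold hq) (ih k)

theorem acc_end (o k : ℕ) : D.Acc (D.cf none 0 (fun _ => 0) 0 k 0 0 0 0 o) o := by
  have hm : 0 < D.m := by have := D.κ_pos; unfold m; omega
  have hind : ∀ i k g, D.cf none i (fun _ => 0) 0 k g 0 0 0 o =
      D.cf none 0 (fun _ => 0) 0 k g 0 0 0 o := by
    intro i k g
    unfold cf
    simp [U_zero, cp]
  induction k with
  | zero =>
    refine ⟨0, ?_, D.count_o _ _ _ _ _ _ _ _ _ _⟩
    intro a ha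
    rcases D.mem_cf.1 ha with ⟨p, hc, rfl⟩ | ⟨k0, rfl, hk0⟩ | ⟨h, rfl⟩ | ⟨hk, rfl⟩ | ⟨hg, rfl⟩ |
      ⟨he, rfl⟩ | ⟨he, rfl⟩ | ⟨he, rfl⟩ | ⟨_, rfl⟩
    · exact absurd hc (by simp)
    · exact absurd rfl hk0
    · exact absurd rfl h
    · exact absurd rfl hk
    · exact absurd rfl hg
    · exact absurd rfl he
    · exact absurd rfl he
    · exact absurd rfl he
    · exact ⟨rfl, rfl⟩
  | succ k ih =>
    have h1 := ih.step (A := D.cf none 0 (fun _ => 0) 0 k 1 0 0 0 o) (by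
      have := D.mk_g (c := none) (i := 0) (v := fun _ => 0) (b := 0) (k := k) (o := o) hm
        (by simp [kdo])
      rw [ff_none, hind] at this
      exact this)
    exact h1.step (by
      have := D.mk_f (c := none) (i := 0) (v := fun _ => 0) (b := 0) (k := k) (o := o) hm
        (by simp [kdo])
      rw [ff_none, hind] at this
      exact this)

theorem acc_main {t : D.T} {v : D.K → ℕ} {o n : ℕ}
    (h : BRun D.A D.d (fun w => w = 0) t v o n) :
    ∀ k, D.Acc (D.cf (some (.main t)) 0 v 0 k 0 0 0 0 o) n := by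
  induction h with
  | @last t v o w h1 h2 h3 h4 =>
    intro k
    subst h3
    have h5 := D.acc_round_main (t := t) (v := v) (b := 0) (o := o) (n := o + D.A.out t) h1 (by
      intro k
      have h6 := D.mk_bf (p := .main t) (v := D.vj t v D.κ) (b := 0) (k := k) (o := o) (x := 0)
        (r := 0) h2 rfl
      rw [upd_eq] at h6
      refine Acc.step ?_ h6
      have e : upd D.A D.d t v (4 * 0) = fun _ => 0 := funext h4
      rw [e]
      exact D.acc_end _ _) D.κ le_rfl k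
    rw [Nat.sub_self, vj_zero] at h5
    exact h5
  | @step t t' v o n w h1 h2 h3 h4 ih =>
    intro k
    subst h3
    have h5 := D.acc_round_main (t := t) (v := v) (b := 0) (o := o) (n := n) h1 (by
      intro k
      have h6 := D.mk_bc (p := .main t) (p' := .main t') (v := D.vj t v D.κ) (b := 0) (k := k)
        (o := o) (x := 0) (r := 0) h2 rfl
      rw [upd_eq] at h6
      exact Acc.step (ih _) h6) D.κ le_rfl k
    rw [Nat.sub_self, vj_zero] at h5
    exact h5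

theorem acc_tst {t : D.T} {v : D.K → ℕ} {b o n : ℕ} (ht : D.A.start t)
    (h : ∀ k, D.Acc (D.cf (some (.main t)) 0 v 0 k 0 0 0 0 o) n) :
    D.Acc (D.cf (some .tst) 0 v b 0 0 0 0 0 o) n := by
  have key : ∀ j, j ≤ D.κ → D.Acc (D.cf (some .tst) (5 * (D.κ - j)) v b 0 0 0 0 0 o) n := by
    intro j
    induction j with
    | zero =>
      intro _
      have h6 := D.mk_bc (p := .tst) (p' := .main t) (v := v) (b := b) (k := 0)
        (o := o) (x := 0) (r := b) ht (by omega)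
      have e : (fun k => D.gr v 0 k + D.eu .tst k) = v := by
        funext k; simp [gr, eu]
      rw [e] at h6
      exact Acc.step (h _) h6
    | succ j ih =>
      intro hj
      have hjj : D.κ - j = D.κ - (j + 1) + 1 := by omega
      have ih := ih (by omega)
      rw [hjj] at ih
      exact D.acc_test (by omega) rfl ih
  have := key D.κ le_rfl
  rwa [Nat.sub_self] at this

theorem acc_gen_round {v : D.K → ℕ} {b k o n : ℕ}
    (h : D.Acc (D.cf (some .gen) D.m v b k 0 0 0 0 o) n) :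
    D.Acc (D.cf (some .gen) 0 v b k 0 0 0 0 o) n := by
  have key : ∀ j, j ≤ D.κ → D.Acc (D.cf (some .gen) (5 * (D.κ - j)) v b k 0 0 0 0 o) n := by
    intro j
    induction j with
    | zero => intro _; exact h
    | succ j ih =>
      intro hj
      have hjj : D.κ - j = D.κ - (j + 1) + 1 := by omega
      have ih := ih (by omega)
      rw [hjj] at ih
      exact D.acc_hold (by omega) rfl ih
  have := key D.κ le_rfl
  rwa [Nat.sub_self] at this

/-- counter values after `i` rounds of the first phase -/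
def vg (i : ℕ) : D.K → ℕ := fun q => D.em q * i + (if q = D.d then 2 * i * (i - 1) else 0)

theorem vg_succ (i : ℕ) : (fun q => D.gr (D.vg i) i q + D.eu .gen q) = D.vg (i + 1) := by
  funext q
  unfold gr eu vg
  by_cases hq : q = D.d
  · simp only [hq, if_true]
    rcases i with _ | i
    · simp
    · simp only [Nat.add_sub_cancel]; ring
  · simp only [hq, if_false]; ring

theorem acc_gen {B n : ℕ} (hB : 1 ≤ B)
    (h : D.Acc (D.cf (some .tst) 0 (D.vg B) B 0 0 0 0 0 0) n) (j : ℕ) : j + 1 ≤ B →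
    D.Acc (D.cf (some .gen) 0 (D.vg (B - (j + 1))) (B - (j + 1)) 0 0 0 0 0 0) n := by
  induction j with
  | zero =>
    intro _
    refine D.acc_gen_round (Acc.step ?_ (D.mk_bc (p' := .tst) (x := B - 1) (r := 0) trivial rfl))
    rw [vg_succ]
    have e : B - 1 + 1 = B := by omega
    simp only [zero_add, e, eb, eo]
    exact h
  | succ j ih =>
    intro hj
    refine D.acc_gen_round (Acc.step ?_
      (D.mk_bc (p' := .gen) (x := B - (j + 1 + 1)) (r := 0) trivial rfl))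
    rw [vg_succ]
    have e : B - (j + 1 + 1) + 1 = B - (j + 1) := by omega
    simp only [e, eb, eo]
    exact ih (by omega)

/-- Completeness of the simulation. -/
theorem complete {n B : ℕ} {t : D.T} (hB : 1 ≤ B) (ht : D.A.start t)
    (h : BRun D.A D.d (fun w => w = 0) t (v0 D.d D.em B 0) 0 n) : D.Acc D.start n := by
  have e : v0 D.d D.em B 0 = D.vg B := by
    funext q
    simp [v0, vg]
  rw [e] at h
  have h1 := D.acc_gen hB (D.acc_tst ht (D.acc_main h)) (B - 1) (by omega)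
  have e1 : B - (B - 1 + 1) = 0 := by omega
  rw [e1] at h1
  have e2 : D.vg 0 = fun _ => 0 := by
    funext q; simp [vg]
  rw [e2] at h1
  exact h1

end Data

end Pool.Agent.Helper273.Sim
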